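import Mathlib

/-!
Counting tuples with a given product.
-/

set_option autoImplicit false
set_option linter.unusedSectionVars false

open Finset Filter
open scoped Topology

namespace Pool.Agent.D0H15.ZO

variable {E : Type} [Field E] [DecidableEq E] {ι : Type} [Fintype ι] [DecidableEq ι] (lam : ι → E)

/-- the number of the tuples with product `μ` -/
def NN (n : ℕ) (μ : E) : ℕ := (univ.filter fun f : Fin n → ι => ∏ a, lam (f a) = μ).card

lemma NN_succ (hl : ∀ i, lam i ≠ 0) (n : ℕ) (μ : E) : NN lam (n + 1) μ = ∑ i, NN lam n (μ * (lam i)⁻¹) := by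
  unfold NN
  simp only [card_filter]
  rw [← Equiv.sum_comp (Fin.consEquiv (fun _ => ι)), Fintype.sum_prod_type]
  refine sum_congr rfl fun i _ => sum_congr rfl fun f _ => ?_
  have h1 : ∏ a, lam ((Fin.consEquiv (fun _ => ι)) (i, f) a) = lam i * ∏ a, lam (f a) := by
    rw [Fin.prod_univ_succ]
    rfl
  rw [h1]
  congr 1
  rw [eq_mul_inv_iff_mul_eq₀ (hl i), mul_comm]

lemma NN_mono (hl : ∀ i, lam i ≠ 0) {i₀ : ι} (h : lam i₀ = 1) (n : ℕ) (μ : E) : NN lam n μ ≤ NN lam (n + 1) μ := by
  rw [NN_succ lam hl]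
  have := single_le_sum (f := fun i => NN lam n (μ * (lam i)⁻¹)) (fun _ _ => Nat.zero_le _) (mem_univ i₀)
  simpa [h] using this

/-- symmetry of the eigenvalues -/
def Sym (c : E) : Prop := ∀ g : E → ℕ, ∑ i, g (c * (lam i)⁻¹) = ∑ i, g (lam i)

variable {lam}

lemma sym_of_card {c : E} (hc : c ≠ 0) (hl : ∀ i, lam i ≠ 0)
    (h : ∀ μ, μ ≠ 0 → (univ.filter fun i => lam i = c * μ⁻¹).card = (univ.filter fun i => lam i = μ).card) : Sym lam c := by
  intro g
  have h1 : (univ.val.map fun i => c * (lam i)⁻¹) = univ.val.map lam := by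
    ext μ
    have e : ∀ l' : ι → E, Multiset.count μ (univ.val.map l') = (univ.filter fun i => l' i = μ).card := by
      intro l'
      rw [Multiset.count_map, Finset.card_def]
      congr 1
      simp only [Finset.filter_val]
      exact Multiset.filter_congr fun i _ => eq_comm
    rw [e, e]
    by_cases hμ : μ = 0
    · subst hμ
      rw [card_eq_zero.2, card_eq_zero.2]
      · exact filter_eq_empty_iff.2 fun {i} _ h => hl i h
      · exact filter_eq_empty_iff.2 fun {i} _ h => (mul_ne_zero hc (inv_ne_zero (hl i))) h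
    · rw [← h μ hμ]
      congr 1
      ext i
      simp only [mem_filter, mem_univ, true_and]
      constructor
      · intro h2
        rw [← h2, mul_inv, inv_inv, ← mul_assoc, mul_inv_cancel₀ hc, one_mul]
      · intro h2
        rw [h2, mul_inv, inv_inv, ← mul_assoc, mul_inv_cancel₀ hc, one_mul]
  have h2 := congrArg (fun s => (s.map g).sum) h1
  simp only [Multiset.map_map] at h2
  exact h2

lemma NN_sym {c : E} (hc : c ≠ 0) (hl : ∀ i, lam i ≠ 0) (hs : Sym lam c) (n : ℕ) :
    ∀ μ : E, μ ≠ 0 → NN lam n (c ^ n * μ⁻¹) = NN lam n μ := by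
  induction n with
  | zero =>
    intro μ hμ
    unfold NN
    congr 1
    ext f
    simp only [univ_eq_empty, prod_empty, mem_filter, mem_univ, true_and, pow_zero, one_mul]
    rw [eq_comm, inv_eq_one, eq_comm]
  | succ n ih =>
    intro μ hμ
    rw [NN_succ lam hl, NN_succ lam hl, ← hs fun x => NN lam n (μ * x⁻¹)]
    refine sum_congr rfl fun i _ => ?_
    rw [← ih (μ * (c * (lam i)⁻¹)⁻¹) (mul_ne_zero hμ (inv_ne_zero (mul_ne_zero hc (inv_ne_zero (hl i)))))]
    congr 1
    have := hl i
    field_simp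
    ring

lemma NN_add (hl : ∀ i, lam i ≠ 0) (m n : ℕ) (μ : E) :
    NN lam (m + n) μ = ∑ f : Fin m → ι, NN lam n (μ * (∏ a, lam (f a))⁻¹) := by
  unfold NN
  simp only [card_filter]
  rw [← Equiv.sum_comp (Fin.appendEquiv m n), Fintype.sum_prod_type]
  refine sum_congr rfl fun f _ => sum_congr rfl fun g _ => ?_
  have h1 : ∏ a, lam ((Fin.appendEquiv m n) (f, g) a) = (∏ a, lam (f a)) * ∏ a, lam (g a) := by
    rw [Fin.prod_univ_add]
    simp [Fin.appendEquiv]
  rw [h1]
  have h2 : (∏ a, lam (f a)) ≠ 0 := prod_ne_zero_iff.2 fun a _ => hl _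
  simp only [eq_mul_inv_iff_mul_eq₀ h2, mul_comm]

/-- the number of the values is polynomial -/
lemma card_values (n : ℕ) : (univ.image fun f : Fin n → ι => ∏ a, lam (f a)).card ≤ (n + 1) ^ Fintype.card ι := by
  have h1 : (univ.image fun f : Fin n → ι => ∏ a, lam (f a)) ⊆
      univ.image fun c : ι → Fin (n + 1) => ∏ i, lam i ^ (c i : ℕ) := by
    intro μ hμ
    obtain ⟨f, -, rfl⟩ := mem_image.1 hμ
    refine mem_image.2 ⟨fun i => ⟨(univ.filter fun a => f a = i).card, ?_⟩, mem_univ _, ?_⟩
    · have := card_le_card (filter_subset (fun a => f a = i) univ)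
      rw [card_univ, Fintype.card_fin] at this
      omega
    · simp only
      have h2 := prod_fiberwise_of_maps_to (s := univ) (t := univ) (g := f) (fun _ _ => mem_univ _) (fun a => lam (f a))
      rw [← h2]
      refine prod_congr rfl fun i _ => ?_
      rw [prod_congr rfl (g := fun _ => lam i) (fun a ha => by rw [(mem_filter.1 ha).2]), prod_const]
  refine (card_le_card h1).trans (card_image_le.trans ?_)
  rw [card_univ, Fintype.card_fun, Fintype.card_fin]

/-- the lower bound for the number of the tuples with the middle value -/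
theorem NN_middle {c : E} (hc : c ≠ 0) (hl : ∀ i, lam i ≠ 0) (hs : Sym lam c) (n : ℕ) :
    (Fintype.card ι) ^ (n + n) ≤ (n + 1) ^ Fintype.card ι * NN lam (n + n) (c ^ n) := by
  have h1 : NN lam (n + n) (c ^ n) = ∑ f : Fin n → ι, NN lam n (∏ a, lam (f a)) := by
    rw [NN_add hl]
    refine sum_congr rfl fun f _ => ?_
    exact NN_sym hc hl hs n _ (prod_ne_zero_iff.2 fun a _ => hl _)
  set I := univ.image fun f : Fin n → ι => ∏ a, lam (f a) with hI
  have h2 : ∑ f : Fin n → ι, NN lam n (∏ a, lam (f a)) = ∑ μ ∈ I, NN lam n μ ^ 2 := by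
    rw [← sum_fiberwise_of_maps_to (s := univ) (t := I) (g := fun f : Fin n → ι => ∏ a, lam (f a))
      (fun f _ => mem_image_of_mem _ (mem_univ f))]
    refine sum_congr rfl fun μ _ => ?_
    rw [sum_congr rfl (g := fun _ => NN lam n μ) (fun f hf => by rw [(mem_filter.1 hf).2]), sum_const, smul_eq_mul, sq]
    rfl
  have h3 : (Fintype.card ι) ^ n = ∑ μ ∈ I, NN lam n μ := by
    have := card_eq_sum_card_image (fun f : Fin n → ι => ∏ a, lam (f a)) univ
    rw [card_univ, Fintype.card_fun, Fintype.card_fin] at this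
    exact this
  rw [h1, h2]
  calc (Fintype.card ι) ^ (n + n) = (∑ μ ∈ I, NN lam n μ) ^ 2 := by rw [← h3, ← pow_mul]; congr 1; ring
    _ ≤ I.card * ∑ μ ∈ I, NN lam n μ ^ 2 := sq_sum_le_card_mul_sum_sq
    _ ≤ _ := Nat.mul_le_mul_right _ (card_values n)

end Pool.Agent.D0H15.ZO
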