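import Mathlib

/-!
Cohomology of complete varieties over a finite field, with the Frobenius.
-/

set_option autoImplicit false

open Module TensorProduct

namespace Pool.Agent.D0H15.ZO

section lin
variable {E : Type} [Field E] {W : Type} [AddCommGroup W] [Module E W]

/-- a perfect pairing which is multiplied by `c` by the endomorphism `F` -/
def HasDuality (F : Module.End E W) (c : E) : Prop :=
  ∃ B : W →ₗ[E] W →ₗ[E] E, B.Nondegenerate ∧ ∀ x y, B (F x) (F y) = c * B x y

/-- a fixed vector -/
def HasUnit (F : Module.End E W) : Prop := ∃ w : W, w ≠ 0 ∧ F w = w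

/-- each invariant subspace on which `F` is semisimple has dimension at most `c dim W` -/
def SSBound (F : Module.End E W) (c : ℝ) : Prop :=
  ∀ (p : Submodule E W) (hp : p ∈ F.invtSubmodule), Module.End.IsSemisimple (F.restrict hp) →
    (finrank E p : ℝ) ≤ c * finrank E W

/-- the sum of the dimensions of the eigenspaces of `F` for `q ^ i`, `0 ≤ i ≤ N` -/
noncomputable def eigSum (F : Module.End E W) (q N : ℕ) : ℕ :=
  ∑ i ∈ Finset.range (N + 1), finrank E (F.eigenspace ((q : E) ^ i))

/-- the sum of the multiplicities of the eigenvalues `q ^ i`, `0 ≤ i ≤ N`, of `F` -/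
noncomputable def mulSum (F : Module.End E W) (q N : ℕ) : ℕ :=
  ∑ i ∈ Finset.range (N + 1), finrank E (F.maxGenEigenspace ((q : E) ^ i))

end lin

/-- The total cohomology `V = ⨁ H^i` of a complete variety over a finite field, with the
Frobenius automorphism `F`. -/
structure CompleteVar (E : Type) [Field E] where
  V : Type
  [grp : AddCommGroup V]
  [mod : Module E V]
  [fin : FiniteDimensional E V]
  F : Module.End E V
  inj : Function.Injective F

attribute [instance] CompleteVar.grp CompleteVar.mod CompleteVar.fin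

/-- The total cohomology of a smooth projective variety (nonempty, of pure dimension `dim`) over a field
with `q` elements: the Frobenius has a fixed vector (the unit of `H^0`), and Poincaré duality is a
perfect pairing which the Frobenius multiplies by `q ^ dim`. -/
structure SmoothVar (E : Type) [Field E] (q : ℕ) extends CompleteVar E where
  dim : ℕ
  unit : HasUnit F
  duality : HasDuality F ((q : E) ^ dim)

variable {E : Type} [Field E]

/-- the cohomology of `Y × X ^ n` (Künneth) -/
def Coh (Y X : CompleteVar E) (n : ℕ) : Type := Y.V ⊗[E] (⨂[E]^n X.V)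

noncomputable instance (Y X : CompleteVar E) (n : ℕ) : AddCommGroup (Coh Y X n) :=
  inferInstanceAs (AddCommGroup (Y.V ⊗[E] (⨂[E]^n X.V)))

noncomputable instance (Y X : CompleteVar E) (n : ℕ) : Module E (Coh Y X n) :=
  inferInstanceAs (Module E (Y.V ⊗[E] (⨂[E]^n X.V)))

instance (Y X : CompleteVar E) (n : ℕ) : FiniteDimensional E (Coh Y X n) :=
  inferInstanceAs (FiniteDimensional E (Y.V ⊗[E] (⨂[E]^n X.V)))

/-- the Frobenius on the cohomology of `Y × X ^ n` -/
noncomputable def Frob (Y X : CompleteVar E) (n : ℕ) : Module.End E (Coh Y X n) :=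
  (TensorProduct.map Y.F (PiTensorProduct.map fun _ => X.F) :
    (Y.V ⊗[E] (⨂[E]^n X.V)) →ₗ[E] (Y.V ⊗[E] (⨂[E]^n X.V)))

/-- the dimension of the space of all Tate classes on `Y × X ^ n`: the sum over the `i` from `0` to the
dimension of `Y × X ^ n` of the dimensions of the eigenspaces of the Frobenius for `q ^ i` (the classes in
`H^(2i)(i)` which are fixed by the Frobenius) -/
noncomputable def tateDim {q : ℕ} (Y X : SmoothVar E q) (n : ℕ) : ℕ :=
  eigSum (Frob Y.toCompleteVar X.toCompleteVar n) q (Y.dim + n * X.dim)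

/-- the sum of the orders of the poles of the zeta function of `Y × X ^ n` at the integers `i` from `0`
to the dimension of `Y × X ^ n`: the sum of the multiplicities of `q ^ i` as eigenvalue of the Frobenius -/
noncomputable def poleOrder {q : ℕ} (Y X : SmoothVar E q) (n : ℕ) : ℕ :=
  mulSum (Frob Y.toCompleteVar X.toCompleteVar n) q (Y.dim + n * X.dim)

/-- the Frobenius is semisimple on `H^*(X)` -/
def IsSS (X : CompleteVar E) : Prop := X.F.IsSemisimple

/-- the Frobenius is semisimple on `H^*(Y × X ^ n)` for all `n` and all `Y` with a semisimple Frobenius -/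
def PowersSS (X : CompleteVar E) : Prop :=
  ∀ Y : CompleteVar E, IsSS Y → ∀ n : ℕ, (Frob Y X n).IsSemisimple

/-- for all `Y` and `n ≥ 1`, every Frobenius-stable subspace of `H^*(Y × X ^ n)` on which the Frobenius is
semisimple has dimension at most `(C / √n) dim H^*(Y × X ^ n)` -/
def FewSS (C : ℝ) (X : CompleteVar E) : Prop :=
  ∀ (Y : CompleteVar E) (n : ℕ), 1 ≤ n → SSBound (Frob Y X n) (C / Real.sqrt n)

/-- the two numbers agree for all `n` and all `Y` with a semisimple Frobenius -/
def TateEq {q : ℕ} (X : SmoothVar E q) : Prop :=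
  ∀ Y : SmoothVar E q, IsSS Y.toCompleteVar → ∀ n : ℕ, tateDim Y X n = poleOrder Y X n

/-- `tateDim ≤ (C / √n) poleOrder` for all `n ≥ 1` and all `Y` with `dim H^*(Y) = b'` -/
def FewTate {q : ℕ} (C : ℝ) (b' : ℕ) (X : SmoothVar E q) : Prop :=
  ∀ Y : SmoothVar E q, finrank E Y.V = b' → ∀ n : ℕ, 1 ≤ n →
    (tateDim Y X n : ℝ) ≤ C / Real.sqrt n * poleOrder Y X n

/-- there are a `Y` with `dim H^*(Y) = b'` and an `n ≥ N` with `tateDim ≥ ε poleOrder` -/
def ManyTate {q : ℕ} (ε : ℝ) (N b' : ℕ) (X : SmoothVar E q) : Prop :=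
  ∃ Y : SmoothVar E q, finrank E Y.V = b' ∧ ∃ n : ℕ, N ≤ n ∧ ε * poleOrder Y X n ≤ (tateDim Y X n : ℝ)

end Pool.Agent.D0H15.ZO
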