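import Pool.Agent.D0H15.ZO.Tower
import Pool.Agent.D0H15.ZO.Count

/-!
The estimates.
-/

set_option autoImplicit false
set_option linter.unusedSectionVars false

open Module TensorProduct Finset Filter
open scoped Topology

namespace Pool.Agent.D0H15.ZO

variable {E : Type} [Field E] [DecidableEq E]

/-- the multiplicities are given by a flag -/
lemma count_eq [IsAlgClosed E] {W : Type} [AddCommGroup W] [Module E W] [FiniteDimensional E W] {G : Module.End E W}
    {T : Type} [Fintype T] {v : T → E} (hcard : Fintype.card T = finrank E W)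
    (h : ∀ k μ, kap G k μ ≤ (univ.filter fun t => v t = μ).card) (μ : E) :
    finrank E (G.maxGenEigenspace μ) = (univ.filter fun t => v t = μ).card := by
  have e : ∀ μ, Multiset.count μ (univ.val.map v) = (univ.filter fun t => v t = μ).card := by
    intro μ
    rw [Multiset.count_map, Finset.card_def]
    congr 1
    simp only [Finset.filter_val]
    exact Multiset.filter_congr fun i _ => eq_comm
  have h0 : ∀ μ, finrank E (G.maxGenEigenspace μ) = Multiset.count μ G.charpoly.roots := by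
    intro μ
    rw [LinearMap.finrank_maxGenEigenspace_eq, Polynomial.count_roots]
  have h1 : ∀ μ, finrank E (G.maxGenEigenspace μ) ≤ (univ.filter fun t => v t = μ).card := by
    intro μ
    have h2 := h (finrank E W) μ
    unfold kap at h2
    rw [← Module.End.genEigenspace_nat, ← Module.End.maxGenEigenspace_eq_genEigenspace_finrank] at h2
    exact h2
  have h2 : G.charpoly.roots ≤ univ.val.map v := by
    rw [Multiset.le_iff_count]
    intro μ
    rw [e, ← h0]
    exact h1 μ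
  have h3 : Multiset.card (univ.val.map v) ≤ Multiset.card G.charpoly.roots := by
    rw [Multiset.card_map, ← (IsAlgClosed.splits G.charpoly).natDegree_eq_card_roots, LinearMap.charpoly_natDegree, ← hcard]
    exact le_rfl
  have h4 := Multiset.eq_of_le_of_card_le h2 h3
  rw [h0, h4, e]

lemma kap_one {W : Type} [AddCommGroup W] [Module E W] (G : Module.End E W) (μ : E) :
    kap G 1 μ = finrank E (G.eigenspace μ) := by
  unfold kap
  rw [pow_one, ← Module.End.genEigenspace_one]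

section est

variable {κ : Type} [Fintype κ] {m : ℕ}

/-- the number of the tuples of small weight -/
lemma few (n J : ℕ) : ((univ.filter fun t : κ × (Fin n → (Bool ⊕ Fin m)) => wt sc2 t < J).card : ℝ) ≤
    2 ^ J * (Fintype.card κ * ((m : ℝ) + 1) ^ n) := by
  have h1 : ((univ.filter fun t : κ × (Fin n → (Bool ⊕ Fin m)) => wt sc2 t < J).card : ℝ) ≤
      ∑ t : κ × (Fin n → (Bool ⊕ Fin m)), 2 ^ J * ((1 : ℝ) / 2) ^ (wt sc2 t) := by
    rw [card_filter]
    push_cast
    refine sum_le_sum fun t _ => ?_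
    split_ifs with h
    · have h2 : (2 : ℝ) ^ (wt sc2 t) ≤ 2 ^ J := pow_le_pow_right₀ (by norm_num) h.le
      rw [div_pow, one_pow, mul_one_div, le_div_iff₀ (by positivity), one_mul]
      exact h2
    · positivity
  refine h1.trans (le_of_eq ?_)
  rw [← mul_sum]
  congr 1
  rw [Fintype.sum_prod_type]
  have h2 : ∀ y : κ, ∑ f : Fin n → (Bool ⊕ Fin m), ((1 : ℝ) / 2) ^ (wt sc2 (y, f)) = ((m : ℝ) + 1) ^ n := by
    intro y
    have h3 : ∑ i : Bool ⊕ Fin m, ((1 : ℝ) / 2) ^ (sc2 i) = (m : ℝ) + 1 := by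
      rw [Fintype.sum_sum_type, Fintype.sum_bool]
      simp [sc2]
      ring
    rw [← h3, Fintype.sum_pow]
    refine sum_congr rfl fun f _ => ?_
    unfold wt
    rw [prod_pow_eq_pow_sum]
  rw [sum_congr rfl fun y _ => h2 y, sum_const, nsmul_eq_mul, card_univ]

/-- the sum of the bounds over a set of values -/
theorem HH_sum {lY : κ → E} {l₀ : E} {l : Fin m → E} {n : ℕ} (hn : 1 ≤ n) (Q : Finset E) :
    ∑ μ ∈ Q, HH lY (lam2 l₀ l) sc2 n 1 μ ≤
      Real.sqrt (2 * ((m : ℝ) + 2) / n) *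
        ((univ.filter fun t : κ × (Fin n → (Bool ⊕ Fin m)) => vl lY (lam2 l₀ l) t ∈ Q).card : ℝ) +
      Fintype.card κ * ((m : ℝ) + 2) ^ n * (1 - 1 / (2 * ((m : ℝ) + 2))) ^ n := by
  have hn' : (0 : ℝ) < n := by exact_mod_cast hn
  set b : ℝ := (m : ℝ) + 2 with hb
  have hb2 : 2 ≤ b := by rw [hb]; linarith [(Nat.cast_nonneg m : (0 : ℝ) ≤ m)]
  set J : ℕ := n / (2 * (m + 2)) with hJ
  have e1 : ∑ μ ∈ Q, HH lY (lam2 l₀ l) sc2 n 1 μ =
      ∑ t : κ × (Fin n → (Bool ⊕ Fin m)), if vl lY (lam2 l₀ l) t ∈ Q then al (wt sc2 t) 1 else 0 := by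
    unfold HH
    rw [sum_comm]
    refine sum_congr rfl fun t _ => ?_
    rw [sum_ite_eq]
  rw [e1]
  have e2 : ∀ t : κ × (Fin n → (Bool ⊕ Fin m)), (if vl lY (lam2 l₀ l) t ∈ Q then al (wt sc2 t) 1 else 0) ≤
      Real.sqrt (2 * b / n) * (if vl lY (lam2 l₀ l) t ∈ Q then 1 else 0) + (if wt sc2 t < J then 1 else 0) := by
    intro t
    have hs : 0 ≤ Real.sqrt (2 * b / n) := Real.sqrt_nonneg _
    by_cases h : vl lY (lam2 l₀ l) t ∈ Q
    · rw [if_pos h, if_pos h, mul_one]
      by_cases h2 : wt sc2 t < J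
      · rw [if_pos h2]
        linarith [(al_mem (wt sc2 t) 1).2]
      · rw [if_neg h2, add_zero]
        refine (al_one_le _).trans ?_
        push Not at h2
        have h3 : n < 2 * (m + 2) * (wt sc2 t + 1) := by
          have : n < 2 * (m + 2) * (J + 1) := by
            rw [hJ]
            exact Nat.lt_mul_div_succ n (by positivity)
          exact this.trans_le (Nat.mul_le_mul_left _ (by omega))
        have h4 : (n : ℝ) ≤ 2 * b * ((wt sc2 t : ℝ) + 1) := by
          rw [hb]; exact_mod_cast h3.le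
        rw [div_le_iff₀ (Real.sqrt_pos.2 (by positivity)), ← Real.sqrt_mul (by positivity)]
        rw [Real.one_le_sqrt, div_mul_eq_mul_div, le_div_iff₀ hn', one_mul]
        exact h4
    · rw [if_neg h, if_neg h, mul_zero, zero_add]
      split_ifs <;> norm_num
  refine (sum_le_sum fun t _ => e2 t).trans ?_
  rw [sum_add_distrib, ← mul_sum]
  refine add_le_add (le_of_eq ?_) ?_
  · rw [card_filter]
    push_cast
    rfl
  · have h1 := few (κ := κ) (m := m) n J
    rw [card_filter] at h1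
    push_cast at h1
    refine h1.trans ?_
    rw [mul_assoc, ← mul_assoc, mul_comm (2 ^ J : ℝ), mul_assoc]
    refine mul_le_mul_of_nonneg_left ?_ (Nat.cast_nonneg _)
    have h2 : (2 : ℝ) ^ J ≤ (1 + 1 / (2 * b)) ^ n := by
      have h3 : (2 : ℝ) ≤ (1 + 1 / (2 * b)) ^ (2 * (m + 2)) := by
        have h4 := one_add_mul_le_pow (a := 1 / (2 * b)) (by
          have : 0 ≤ 1 / (2 * b) := by positivity
          linarith) (2 * (m + 2))
        have h5 : ((2 * (m + 2) : ℕ) : ℝ) * (1 / (2 * b)) = 1 := by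
          push_cast
          rw [hb]
          field_simp
        linarith
      have h6 : (1 : ℝ) ≤ 1 + 1 / (2 * b) := by
        have : 0 ≤ 1 / (2 * b) := by positivity
        linarith
      calc (2 : ℝ) ^ J ≤ ((1 + 1 / (2 * b)) ^ (2 * (m + 2))) ^ J := pow_le_pow_left₀ (by norm_num) h3 J
        _ = (1 + 1 / (2 * b)) ^ (2 * (m + 2) * J) := by rw [← pow_mul]
        _ ≤ (1 + 1 / (2 * b)) ^ n := pow_le_pow_right₀ h6 (by rw [hJ]; exact Nat.mul_div_le n _)
    have h3 : (m : ℝ) + 1 = b - 1 := by rw [hb]; ring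
    rw [h3]
    have h7 : (0 : ℝ) ≤ b - 1 := by linarith
    calc (2 : ℝ) ^ J * (b - 1) ^ n ≤ (1 + 1 / (2 * b)) ^ n * (b - 1) ^ n :=
          mul_le_mul_of_nonneg_right h2 (by positivity)
      _ = ((1 + 1 / (2 * b)) * (b - 1)) ^ n := by rw [mul_pow]
      _ ≤ (b * (1 - 1 / (2 * b))) ^ n := by
          apply pow_le_pow_left₀ (by positivity)
          have : (1 + 1 / (2 * b)) * (b - 1) = b - 1 / 2 - 1 / (2 * b) := by field_simp; ring
          rw [this]
          have h8 : b * (1 - 1 / (2 * b)) = b - 1 / 2 := by field_simp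
          rw [h8]
          have : 0 ≤ 1 / (2 * b) := by positivity
          linarith
      _ = b ^ n * (1 - 1 / (2 * b)) ^ n := by rw [mul_pow]

/-- exponential decay beats powers -/
lemma decay (b : ℕ) {θ : ℝ} (h0 : 0 < θ) (h1 : θ < 1) : ∃ C : ℝ, 0 ≤ C ∧ ∀ n : ℕ, 1 ≤ n →
    ((n : ℝ) + 1) ^ b * θ ^ n ≤ C / Real.sqrt n := by
  have h2 := tendsto_pow_const_mul_const_pow_of_abs_lt_one (b + 1) (r := θ) (by rw [abs_of_pos h0]; exact h1)
  obtain ⟨M, hM⟩ := h2.bddAbove_range
  have hM' : ∀ n : ℕ, (n : ℝ) ^ (b + 1) * θ ^ n ≤ M := fun n => hM ⟨n, rfl⟩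
  refine ⟨M / θ, div_nonneg ((by positivity : (0 : ℝ) ≤ ((0 : ℕ) : ℝ) ^ (b + 1) * θ ^ 0).trans (hM' 0)) h0.le,
    fun n hn => ?_⟩
  have hn' : (1 : ℝ) ≤ n := by exact_mod_cast hn
  have hs : 0 < Real.sqrt n := Real.sqrt_pos.2 (by linarith)
  rw [le_div_iff₀ hs, le_div_iff₀ h0]
  have h3 := hM' (n + 1)
  push_cast at h3
  have h4 : Real.sqrt n ≤ (n : ℝ) + 1 := by
    rw [Real.sqrt_le_left (by linarith)]
    nlinarith
  calc ((n : ℝ) + 1) ^ b * θ ^ n * Real.sqrt n * θ = ((n : ℝ) + 1) ^ b * Real.sqrt n * (θ ^ n * θ) := by ring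
    _ ≤ ((n : ℝ) + 1) ^ b * ((n : ℝ) + 1) * (θ ^ n * θ) := by
        apply mul_le_mul_of_nonneg_right _ (by positivity)
        exact mul_le_mul_of_nonneg_left h4 (by positivity)
    _ = ((n : ℝ) + 1) ^ (b + 1) * θ ^ (n + 1) := by ring
    _ ≤ M := h3

end est

end Pool.Agent.D0H15.ZO
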