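import Pool.Agent.D0H15.ZO.Pow

/-!
The bounds for tensor powers of an endomorphism which is not semisimple.
-/

set_option autoImplicit false
set_option linter.unusedSectionVars false

open Module TensorProduct Finset Filter
open scoped Topology

namespace Pool.Agent.D0H15.ZO

variable {E : Type} [Field E]

section
variable {V A : Type} [AddCommGroup V] [Module E V] [FiniteDimensional E V]
  [AddCommGroup A] [Module E A] [FiniteDimensional E A]

lemma kap_id (k : ℕ) (ν : E) [Decidable (ν = 1)] :
    kap (1 : E →ₗ[E] E) k ν ≤ if ν = 1 then 1 else 0 := by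
  split_ifs with h
  · exact (Submodule.finrank_le _).trans (by rw [finrank_self])
  · unfold kap
    have h1 : (1 : E →ₗ[E] E) - ν • (1 : Module.End E E) = (1 - ν) • (1 : Module.End E E) := by
      ext; simp
    rw [h1, smul_pow, one_pow, Nat.le_zero]
    have h2 : LinearMap.ker ((1 - ν) ^ k • (1 : Module.End E E)) = ⊥ := by
      rw [LinearMap.ker_smul _ _ (pow_ne_zero k (sub_ne_zero.2 (Ne.symm h)))]
      exact LinearMap.ker_id
    rw [h2, finrank_bot]

lemma kap_lid (F : V →ₗ[E] V) (k : ℕ) (μ : E) : kap (TensorProduct.map (1 : E →ₗ[E] E) F) k μ = kap F k μ := by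
  refine kap_congr (TensorProduct.lid E V).symm (fun x => ?_) k μ
  rw [TensorProduct.lid_symm_apply, TensorProduct.lid_symm_apply, TensorProduct.map_tmul]
  rfl

lemma flag_count [DecidableEq E] {F : V →ₗ[E] V} {n : ℕ} {l : Fin n → E} (h : IsFlag F l) (k : ℕ) (μ : E) :
    kap F k μ ≤ (univ.filter fun i => l i = μ).card := by
  rw [← kap_lid, card_filter]
  refine (h.2 E 1 k μ).trans (sum_le_sum fun i _ => ?_)
  refine (kap_id k _).trans (le_of_eq ?_)
  have : μ * (l i)⁻¹ = 1 ↔ l i = μ := by
    rw [mul_inv_eq_one₀ (h.1 i), eq_comm]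
  simp only [this]

lemma flag2_count [DecidableEq E] {F : V →ₗ[E] V} {m : ℕ} {l₀ : E} {l : Fin m → E} (h : IsFlag2 F l₀ l) (k : ℕ) (μ : E) :
    kap F k μ ≤ (univ.filter fun i => lam2 l₀ l i = μ).card := by
  rcases k with _ | k
  · rw [kap_zero]; exact Nat.zero_le _
  rw [← kap_lid, card_filter, Fintype.sum_sum_type, Fintype.sum_bool]
  refine (h.2.2 E 1 (fun _ _ h => h) k μ).trans ?_
  have e0 : μ * l₀⁻¹ = 1 ↔ l₀ = μ := by
    rw [mul_inv_eq_one₀ h.1, eq_comm]
  have e1 : ∀ i, μ * (l i)⁻¹ = 1 ↔ l i = μ := by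
    intro i
    rw [mul_inv_eq_one₀ (h.2.1 i), eq_comm]
  refine Nat.add_le_add (Nat.add_le_add ?_ ?_) (sum_le_sum fun i _ => ?_)
  · refine (kap_id k _).trans (le_of_eq ?_)
    simp only [e0]
    rfl
  · refine (kap_id (k + 2) _).trans (le_of_eq ?_)
    simp only [e0]
    rfl
  · refine (kap_id (k + 1) _).trans (le_of_eq ?_)
    simp only [e1]
    rfl

/-- invariant subspaces on which the endomorphism is semisimple -/
lemma finrank_ss [IsAlgClosed E] {G : Module.End E A} {p : Submodule E A} (hp : p ∈ G.invtSubmodule)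
    (hs : Module.End.IsSemisimple (G.restrict hp)) :
    ∃ Q : Finset E, finrank E p ≤ ∑ μ ∈ Q, kap G 1 μ := by
  classical
  set g : Module.End E p := G.restrict hp with hg
  refine ⟨g.charpoly.roots.toFinset, ?_⟩
  have h1 : finrank E p = ∑ μ ∈ g.charpoly.roots.toFinset, Multiset.count μ g.charpoly.roots := by
    rw [Multiset.toFinset_sum_count_eq, ← (IsAlgClosed.splits g.charpoly).natDegree_eq_card_roots,
      LinearMap.charpoly_natDegree]
  rw [h1]
  refine sum_le_sum fun μ _ => ?_
  rw [Polynomial.count_roots, ← LinearMap.finrank_maxGenEigenspace_eq,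
    (Module.End.isFinitelySemisimple_iff_isSemisimple.2 hs).maxGenEigenspace_eq_eigenspace, kap_one]
  have h2 : (g.eigenspace μ).map p.subtype ≤ G.eigenspace μ := by
    rintro _ ⟨x, hx, rfl⟩
    rw [SetLike.mem_coe, Module.End.mem_eigenspace_iff] at hx
    rw [Module.End.mem_eigenspace_iff]
    have := congrArg p.subtype hx
    rw [map_smul] at this
    exact this
  have h3 := Submodule.finrank_mono h2
  rwa [Submodule.finrank_map_subtype_eq] at h3

/-- the data of an endomorphism which is not semisimple -/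
theorem main_bound [IsAlgClosed E] [CharZero E] [DecidableEq E] {G : Module.End E A} {F : Module.End E V}
    (hG : Function.Injective G) (hF : Function.Injective F) (hns : ¬ F.IsSemisimple) :
    ∃ (m : ℕ) (lam : Bool ⊕ Fin m → E) (lY : Fin (finrank E A) → E), finrank E V = m + 2 ∧
      (∀ i, lam i ≠ 0) ∧
      (∀ μ, finrank E (F.maxGenEigenspace μ) = (univ.filter fun i => lam i = μ).card) ∧
      (∀ μ, finrank E (G.maxGenEigenspace μ) = (univ.filter fun i => lY i = μ).card) ∧
      (∀ n μ, finrank E (Module.End.maxGenEigenspace (pw G F n) μ) =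
        (univ.filter fun t : Fin (finrank E A) × (Fin n → (Bool ⊕ Fin m)) => vl lY lam t = μ).card) ∧
      (∀ n, 1 ≤ n → ∀ Q : Finset E, ((∑ μ ∈ Q, kap (pw G F n) 1 μ : ℕ) : ℝ) ≤
        Real.sqrt (2 * ((m : ℝ) + 2) / n) *
          ((univ.filter fun t : Fin (finrank E A) × (Fin n → (Bool ⊕ Fin m)) => vl lY lam t ∈ Q).card : ℝ) +
        finrank E A * ((m : ℝ) + 2) ^ n * (1 - 1 / (2 * ((m : ℝ) + 2))) ^ n) := by
  obtain ⟨m, l₀, l, hm, hfl⟩ := exists_flag2 hF hns
  obtain ⟨lY, hY⟩ := exists_flag _ A G hG rfl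
  have hb := tower_bound (W := fun n => A ⊗[E] (⨂[E]^n V)) hfl (G := fun n => pw G F n) (fun n => tw E V A n)
    (fun n x => tw_map G F n x) (fun n => pw_inj hG hF n) (lY := lY) (fun k μ => by
      rw [kap_congr (bs E V A).symm (G' := G) (fun x => ?_)]
      · exact flag_count hY k μ
      · apply (bs E V A).injective
        rw [← bs_map G F]
        simp)
  refine ⟨m, lam2 l₀ l, lY, hm, ?_, ?_, ?_, ?_, ?_⟩
  · rintro (i | i)
    · exact hfl.1
    · exact hfl.2.1 i
  · refine count_eq ?_ (fun k μ => flag2_count hfl k μ)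
    rw [Fintype.card_sum, Fintype.card_bool, Fintype.card_fin, hm, add_comm]
  · refine count_eq ?_ (fun k μ => flag_count hY k μ)
    rw [Fintype.card_fin]
  · intro n
    refine count_eq ?_ (fun k μ => ?_)
    · rw [Fintype.card_prod, Fintype.card_fun, Fintype.card_sum, Fintype.card_bool, Fintype.card_fin,
        Fintype.card_fin, Fintype.card_fin, finrank_pw, hm, add_comm 2 m]
    · have := (hb n k μ).trans (HH_le _ _ _ _ _ _)
      exact_mod_cast this
  · intro n hn Q
    have h1 : ((∑ μ ∈ Q, kap (pw G F n) 1 μ : ℕ) : ℝ) ≤ ∑ μ ∈ Q, HH lY (lam2 l₀ l) sc2 n 1 μ := by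
      push_cast
      exact sum_le_sum fun μ _ => hb n 1 μ
    refine h1.trans ((HH_sum hn Q).trans (le_of_eq ?_))
    rw [Fintype.card_fin]

end

/-! ### Poincaré duality -/

section dual
variable {V : Type} [AddCommGroup V] [Module E V] [FiniteDimensional E V]

lemma dual_pow {F : Module.End E V} {B : V →ₗ[E] V →ₗ[E] E} {c : E} (hB : ∀ x y, B (F x) (F y) = c * B x y)
    {μ : E} (hμ : μ ≠ 0) (k : ℕ) : ∀ x y, B (((F - μ • (1 : Module.End E V)) ^ k) x) ((F ^ k) y) =
      (-μ) ^ k * B x (((F - (c * μ⁻¹) • (1 : Module.End E V)) ^ k) y) := by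
  induction k with
  | zero => intro x y; simp
  | succ k ih =>
    intro x y
    rw [pow_succ, pow_succ F, Module.End.mul_apply, Module.End.mul_apply, ih,
      pow_succ' (F - (c * μ⁻¹) • (1 : Module.End E V)), Module.End.mul_apply]
    set z := ((F - (c * μ⁻¹) • (1 : Module.End E V)) ^ k) y with hz
    have h1 : ((F - (c * μ⁻¹) • (1 : Module.End E V)) ^ k) (F y) = F z := by
      have hc : Commute (F - (c * μ⁻¹) • (1 : Module.End E V)) F := by
        apply Commute.sub_left (Commute.refl F)
        exact (Commute.one_left F).smul_left _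
      have := (hc.pow_left k).eq
      have h2 := LinearMap.congr_fun this y
      exact h2
    rw [h1]
    simp only [LinearMap.sub_apply, LinearMap.smul_apply, Module.End.one_apply, map_sub, map_smul, hB, smul_eq_mul]
    field_simp
    ring

lemma pow_inj {F : Module.End E V} (hF : Function.Injective F) (k : ℕ) : Function.Injective (F ^ k) := by
  induction k with
  | zero => exact fun _ _ h => h
  | succ k ih =>
    intro x y h
    rw [pow_succ', Module.End.mul_apply, Module.End.mul_apply] at h
    exact ih (hF h)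

lemma dual_le {F : Module.End E V} (hF : Function.Injective F) {B : V →ₗ[E] V →ₗ[E] E} (hnd : B.Nondegenerate)
    {c : E} (hB : ∀ x y, B (F x) (F y) = c * B x y) {μ : E} (hμ : μ ≠ 0) (k : ℕ) :
    kap F k (c * μ⁻¹) ≤ kap F k μ := by
  set T := (F - μ • (1 : Module.End E V)) ^ k with hT
  set K := LinearMap.ker ((F - (c * μ⁻¹) • (1 : Module.End E V)) ^ k) with hK
  have hFk : Function.Injective (F ^ k) := pow_inj hF k
  have h1 : ∀ y : K, B.flip ((F ^ k) y) ∈ (LinearMap.range T).dualAnnihilator := by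
    intro y
    rw [Submodule.mem_dualAnnihilator]
    rintro _ ⟨x, rfl⟩
    rw [LinearMap.flip_apply, hT, dual_pow hB hμ]
    have h2 : ((F - (c * μ⁻¹) • (1 : Module.End E V)) ^ k) (y : V) = 0 := y.2
    rw [h2, map_zero, mul_zero]
  set f : K →ₗ[E] (LinearMap.range T).dualAnnihilator :=
    ((B.flip ∘ₗ (F ^ k)).domRestrict K).codRestrict _ h1 with hf
  have hfi : Function.Injective f := by
    intro y z h
    have h2 : B.flip ((F ^ k) y) = B.flip ((F ^ k) z) := congrArg Subtype.val h
    have h3 : B.flip ((F ^ k) ((y : V) - z)) = 0 := by rw [map_sub, map_sub, h2, sub_self]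
    have h4 : (F ^ k) ((y : V) - z) = 0 := by
      apply hnd.2
      intro x
      have := LinearMap.congr_fun h3 x
      rw [LinearMap.flip_apply] at this
      exact this
    have h5 : (y : V) - z = 0 := hFk (by rw [h4, map_zero])
    exact Subtype.ext (sub_eq_zero.1 h5)
  have h2 := LinearMap.finrank_le_finrank_of_injective hfi
  have h3 := Subspace.finrank_add_finrank_dualAnnihilator_eq (LinearMap.range T)
  have h4 := LinearMap.finrank_range_add_finrank_ker T
  unfold kap
  rw [← hT, ← hK]
  omega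

end dual

end Pool.Agent.D0H15.ZO
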