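import Pool.Agent.D0H15.ZO.Ker

/-!
Flags of invariant subspaces.
-/

set_option autoImplicit false

open Module TensorProduct

namespace Pool.Agent.D0H15.ZO

variable {E : Type} [Field E]

/-- the bound for the kernels on `A ⊗ V` by a flag of `V` -/
def IsFlag {V : Type} [AddCommGroup V] [Module E V] (F : V →ₗ[E] V) {ι : Type} [Fintype ι] (l : ι → E) : Prop :=
  (∀ i, l i ≠ 0) ∧ ∀ (A : Type) [AddCommGroup A] [Module E A] [FiniteDimensional E A] (G : A →ₗ[E] A)
    (k : ℕ) (μ : E), kap (TensorProduct.map G F) k μ ≤ ∑ i, kap G k (μ * (l i)⁻¹)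

section
variable {V S : Type} [AddCommGroup V] [Module E V] [FiniteDimensional E V]
  [AddCommGroup S] [Module E S] [FiniteDimensional E S]

omit [FiniteDimensional E S] in
lemma quo_inj {j : S →ₗ[E] V} {F : V →ₗ[E] V} {FS : S →ₗ[E] S} (h : F ∘ₗ j = j ∘ₗ FS)
    (hF : Function.Injective F) : Function.Injective (quo h) := by
  rw [LinearMap.injective_iff_surjective]
  intro y
  obtain ⟨v, rfl⟩ := Submodule.mkQ_surjective _ y
  obtain ⟨w, rfl⟩ := (LinearMap.injective_iff_surjective.1 hF) v
  exact ⟨(LinearMap.range j).mkQ w, rfl⟩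

end

theorem exists_flag [IsAlgClosed E] : ∀ (n : ℕ) (V : Type) [AddCommGroup V] [Module E V] [FiniteDimensional E V]
    (F : V →ₗ[E] V), Function.Injective F → finrank E V = n → ∃ l : Fin n → E, IsFlag F l := by
  intro n
  induction n with
  | zero =>
    intro V _ _ _ F hF hn
    refine ⟨Fin.elim0, fun i => i.elim0, fun A _ _ _ G k μ => ?_⟩
    have h1 : finrank E (A ⊗[E] V) = 0 := by rw [Module.finrank_tensorProduct, hn, mul_zero]
    have h2 : kap (TensorProduct.map G F) k μ ≤ finrank E (A ⊗[E] V) := Submodule.finrank_le _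
    rw [h1] at h2
    exact h2.trans (Nat.zero_le _)
  | succ n ih =>
    intro V _ _ _ F hF hn
    have : Nontrivial V := Module.nontrivial_of_finrank_pos (R := E) (by omega)
    obtain ⟨l, hl⟩ := Module.End.exists_eigenvalue F
    obtain ⟨e, he⟩ := hl.exists_hasEigenvector
    have he1 : F e = l • e := he.apply_eq_smul
    have he0 : e ≠ 0 := he.2
    have hl0 : l ≠ 0 := by
      rintro rfl
      rw [zero_smul] at he1
      exact he0 ((map_eq_zero_iff F hF).1 he1)
    have hj : Function.Injective (LinearMap.toSpanSingleton E V e) := fun a b hab =>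
      smul_left_injective E he0 hab
    have hFj : F ∘ₗ LinearMap.toSpanSingleton E V e = LinearMap.toSpanSingleton E V e ∘ₗ (l • (1 : Module.End E E)) := by
      ext
      simp [he1]
    have hQ : finrank E (V ⧸ LinearMap.range (LinearMap.toSpanSingleton E V e)) = n := by
      have h1 := Submodule.finrank_quotient_add_finrank (LinearMap.range (LinearMap.toSpanSingleton E V e))
      rw [LinearMap.finrank_range_of_inj hj, finrank_self] at h1
      omega
    obtain ⟨l', hl', hb⟩ := ih _ (quo hFj) (quo_inj hFj hF) hQ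
    refine ⟨Fin.cons l l', ?_, ?_⟩
    · intro i
      refine Fin.cases ?_ (fun i => ?_) i
      · exact hl0
      · exact hl' i
    · intro A _ _ _ G k μ
      refine (kap_tensor hj hFj G k μ).trans ?_
      rw [Fin.sum_univ_succ, Fin.cons_zero, kap_line G hl0]
      simp only [Fin.cons_succ]
      exact Nat.add_le_add_left (hb A G k μ) _

/-- diagonalizable endomorphisms are semisimple -/
lemma ss_of_iSup {V : Type} [AddCommGroup V] [Module E V] [FiniteDimensional E V] {F : Module.End E V}
    (h : ⨆ μ : E, F.eigenspace μ = ⊤) : F.IsSemisimple := by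
  classical
  set p : Polynomial E := ∏ μ ∈ F.charpoly.roots.toFinset, (Polynomial.X - Polynomial.C μ) with hp
  refine Module.End.isSemisimple_of_squarefree_aeval_eq_zero (p := p) ?_ ?_
  · apply Polynomial.Separable.squarefree
    rw [hp]
    exact Polynomial.separable_prod_X_sub_C_iff'.2 (fun _ _ _ _ h => h)
  · have h1 : (⨆ μ : E, F.eigenspace μ) ≤ LinearMap.ker (Polynomial.aeval F p) := by
      refine iSup_le fun μ => ?_
      intro x hx
      rw [LinearMap.mem_ker]
      by_cases hx0 : x = 0
      · rw [hx0, map_zero]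
      have hv : F.HasEigenvector μ x := ⟨hx, hx0⟩
      rw [Module.End.aeval_apply_of_hasEigenvector hv]
      have hμ : μ ∈ F.charpoly.roots.toFinset := by
        rw [Multiset.mem_toFinset, Polynomial.mem_roots (LinearMap.charpoly_monic F).ne_zero]
        exact (Module.End.hasEigenvalue_iff_isRoot_charpoly F μ).1 (Module.End.hasEigenvalue_of_hasEigenvector hv)
      have : p.eval μ = 0 := by
        rw [hp, Polynomial.eval_prod]
        exact Finset.prod_eq_zero hμ (by simp)
      rw [this, zero_smul]
    rw [h, top_le_iff, LinearMap.ker_eq_top] at h1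
    exact h1

lemma exists_blk [IsAlgClosed E] {V : Type} [AddCommGroup V] [Module E V] [FiniteDimensional E V]
    {F : Module.End E V} (h : ¬ F.IsSemisimple) : ∃ (l : E) (j : (E × E) →ₗ[E] V),
      Function.Injective j ∧ F ∘ₗ j = j ∘ₗ blk l 1 := by
  by_contra hcon
  push Not at hcon
  apply h
  have h1 : ∀ (l : E) (x : V), ((F - l • (1 : Module.End E V)) ^ 2) x = 0 → (F - l • (1 : Module.End E V)) x = 0 := by
    intro l x hx
    by_contra hne
    set P : Module.End E V := F - l • (1 : Module.End E V) with hP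
    have hPx : ∀ x, P x = F x - l • x := fun x => rfl
    have hPP : P (P x) = 0 := by rw [← hx, sq, Module.End.mul_apply]
    refine hcon l (LinearMap.coprod (LinearMap.toSpanSingleton E V (P x)) (LinearMap.toSpanSingleton E V x)) ?_ ?_
    · rw [← LinearMap.ker_eq_bot, LinearMap.ker_eq_bot']
      rintro ⟨a, b⟩ hab
      rw [LinearMap.coprod_apply, LinearMap.toSpanSingleton_apply, LinearMap.toSpanSingleton_apply] at hab
      have h2 := congrArg P hab
      rw [map_add, map_smul, map_smul, hPP, smul_zero, zero_add, map_zero, smul_eq_zero] at h2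
      have hb : b = 0 := h2.resolve_right hne
      subst hb
      rw [zero_smul, add_zero, smul_eq_zero] at hab
      have ha : a = 0 := hab.resolve_right hne
      rw [ha]
      rfl
    · have e1 : F (P x) = l • P x := by
        have := hPx (P x)
        rw [hPP] at this
        exact (sub_eq_zero.1 this.symm)
      have e2 : F x = P x + l • x := by rw [hPx]; abel
      refine LinearMap.ext fun ab => ?_
      obtain ⟨a, b⟩ := ab
      show F (a • P x + b • x) = (l • a + (1 : E) • b) • P x + (l • b) • x
      rw [map_add, map_smul, map_smul, e1, e2]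
      simp only [smul_eq_mul]
      module
  have h2 : ∀ (l : E) (k : ℕ) (x : V), ((F - l • (1 : Module.End E V)) ^ (k + 1)) x = 0 →
      (F - l • (1 : Module.End E V)) x = 0 := by
    intro l k
    induction k with
    | zero => intro x hx; rwa [zero_add, pow_one] at hx
    | succ k ih =>
      intro x hx
      apply ih
      have e : (F - l • (1 : Module.End E V)) ^ (k + 1 + 1) = (F - l • (1 : Module.End E V)) ^ 2 *
        (F - l • (1 : Module.End E V)) ^ k := by rw [← pow_add]; congr 1; omega
      rw [e, Module.End.mul_apply] at hx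
      have h3 := h1 l _ hx
      rwa [← Module.End.mul_apply, ← pow_succ'] at h3
  apply ss_of_iSup
  rw [eq_top_iff, ← Module.End.iSup_maxGenEigenspace_eq_top F]
  refine iSup_mono fun μ => ?_
  intro x hx
  rw [Module.End.mem_maxGenEigenspace] at hx
  obtain ⟨k, hk⟩ := hx
  rw [Module.End.mem_eigenspace_iff]
  have h3 : (F - μ • (1 : Module.End E V)) x = 0 := by
    rcases k with _ | k
    · rw [pow_zero, Module.End.one_apply] at hk
      rw [hk, map_zero]
    · exact h2 μ k x hk
  exact sub_eq_zero.1 h3

/-- the bound for the kernels on `A ⊗ V` by a flag of `V` with a Jordan block of size two -/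
def IsFlag2 {V : Type} [AddCommGroup V] [Module E V] (F : V →ₗ[E] V) {ι : Type} [Fintype ι] (l₀ : E) (l : ι → E) :
    Prop :=
  l₀ ≠ 0 ∧ (∀ i, l i ≠ 0) ∧ ∀ (A : Type) [AddCommGroup A] [Module E A] [FiniteDimensional E A] (G : A →ₗ[E] A),
    Function.Injective G → ∀ (k : ℕ) (μ : E), kap (TensorProduct.map G F) (k + 1) μ ≤
      kap G k (μ * l₀⁻¹) + kap G (k + 2) (μ * l₀⁻¹) + ∑ i, kap G (k + 1) (μ * (l i)⁻¹)

theorem exists_flag2 [IsAlgClosed E] [CharZero E] {V : Type} [AddCommGroup V] [Module E V] [FiniteDimensional E V]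
    {F : Module.End E V} (hF : Function.Injective F) (h : ¬ F.IsSemisimple) :
    ∃ (m : ℕ) (l₀ : E) (l : Fin m → E), finrank E V = m + 2 ∧ IsFlag2 F l₀ l := by
  obtain ⟨l₀, j, hj, hFj⟩ := exists_blk h
  have hQ : finrank E (V ⧸ LinearMap.range j) + 2 = finrank E V := by
    have h1 := Submodule.finrank_quotient_add_finrank (LinearMap.range j)
    rw [LinearMap.finrank_range_of_inj hj, Module.finrank_prod, finrank_self] at h1
    omega
  obtain ⟨l, hl, hb⟩ := exists_flag (E := E) _ _ (quo hFj) (quo_inj hFj hF) rfl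
  have hl0 : l₀ ≠ 0 := by
    rintro rfl
    have h1 : F (j (1, 0)) = 0 := by
      have := LinearMap.congr_fun hFj (1, 0)
      simp only [LinearMap.comp_apply] at this
      rw [this]
      have : blk (0 : E) 1 (1, 0) = 0 := by simp [blk]
      rw [this, map_zero]
    have h2 := (map_eq_zero_iff j hj).1 ((map_eq_zero_iff F hF).1 h1)
    simp at h2
  refine ⟨_, l₀, l, hQ.symm, hl0, hl, ?_⟩
  intro A _ _ _ G hG k μ
  refine (kap_tensor hj hFj G (k + 1) μ).trans ?_
  exact Nat.add_le_add (kap_blk hG hl0 one_ne_zero k (by exact_mod_cast Nat.succ_ne_zero k) μ) (hb A G (k + 1) μ)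

end Pool.Agent.D0H15.ZO
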