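import Mathlib

/-!
Kernels of powers of `G - μ` on tensor products.
-/

set_option autoImplicit false

open Module TensorProduct

namespace Pool.Agent.D0H15.ZO

variable {E : Type} [Field E]

/-- the dimension of the kernel of `(G - μ) ^ k` -/
noncomputable def kap {W : Type} [AddCommGroup W] [Module E W] (G : W →ₗ[E] W) (k : ℕ) (μ : E) : ℕ :=
  finrank E (LinearMap.ker ((G - μ • (1 : Module.End E W)) ^ k))

lemma kap_zero {W : Type} [AddCommGroup W] [Module E W] (G : W →ₗ[E] W) (μ : E) : kap G 0 μ = 0 := by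
  unfold kap
  rw [pow_zero, Module.End.one_eq_id, LinearMap.ker_id, finrank_bot]

section congr
variable {W W' : Type} [AddCommGroup W'] [Module E W'] [AddCommGroup W] [Module E W]

lemma pow_comm {i : W' →ₗ[E] W} {G' : W' →ₗ[E] W'} {G : W →ₗ[E] W}
    (h : G ∘ₗ i = i ∘ₗ G') (μ : E) (k : ℕ) :
    ((G - μ • (1 : Module.End E W)) ^ k) ∘ₗ i = i ∘ₗ ((G' - μ • (1 : Module.End E W')) ^ k) := by
  have h1 : (G - μ • (1 : Module.End E W)) ∘ₗ i = i ∘ₗ (G' - μ • (1 : Module.End E W')) := by
    ext x
    have := LinearMap.congr_fun h x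
    simp only [LinearMap.comp_apply, LinearMap.sub_apply, LinearMap.smul_apply, Module.End.one_apply,
      map_sub, map_smul] at this ⊢
    rw [this]
  induction k with
  | zero =>
    ext x
    simp
  | succ k ih =>
    ext x
    have h2 := LinearMap.congr_fun ih
    have h3 := LinearMap.congr_fun h1
    simp only [LinearMap.comp_apply] at h2 h3 ⊢
    rw [pow_succ, pow_succ, Module.End.mul_apply, Module.End.mul_apply, h3, h2]

lemma kap_congr {G : W →ₗ[E] W} {G' : W' →ₗ[E] W'} (e : W' ≃ₗ[E] W)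
    (h : ∀ x, G (e x) = e (G' x)) (k : ℕ) (μ : E) : kap G k μ = kap G' k μ := by
  unfold kap
  have h1 := pow_comm (i := e.toLinearMap) (G := G) (G' := G') (LinearMap.ext h) μ k
  have h2 : LinearMap.ker ((G - μ • (1 : Module.End E W)) ^ k) =
      (LinearMap.ker ((G' - μ • (1 : Module.End E W')) ^ k)).map e.toLinearMap := by
    ext x
    rw [LinearMap.mem_ker, Submodule.mem_map]
    constructor
    · intro hx
      refine ⟨e.symm x, ?_, e.apply_symm_apply x⟩
      rw [LinearMap.mem_ker]
      have h3 := LinearMap.congr_fun h1 (e.symm x)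
      simp only [LinearMap.comp_apply, LinearEquiv.coe_coe, LinearEquiv.apply_symm_apply] at h3
      rw [hx] at h3
      exact (map_eq_zero_iff e e.injective).1 h3.symm
    · rintro ⟨y, hy, rfl⟩
      rw [LinearMap.mem_ker] at hy
      have h3 := LinearMap.congr_fun h1 y
      simp only [LinearMap.comp_apply, LinearEquiv.coe_coe] at h3
      rw [LinearEquiv.coe_coe, h3, hy, map_zero]
  rw [h2]
  exact LinearEquiv.finrank_map_eq e _

end congr

section ext
variable {W' W W'' : Type} [AddCommGroup W'] [Module E W'] [AddCommGroup W] [Module E W]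
  [AddCommGroup W''] [Module E W''] [FiniteDimensional E W'] [FiniteDimensional E W] [FiniteDimensional E W'']

lemma ker_ext {i : W' →ₗ[E] W} {p : W →ₗ[E] W''} (hex : Function.Exact i p) (hi : Function.Injective i)
    {T' : W' →ₗ[E] W'} {T : W →ₗ[E] W} {T'' : W'' →ₗ[E] W''} (h1 : T ∘ₗ i = i ∘ₗ T')
    (h2 : p ∘ₗ T = T'' ∘ₗ p) :
    finrank E (LinearMap.ker T) ≤ finrank E (LinearMap.ker T') + finrank E (LinearMap.ker T'') := by
  set f : LinearMap.ker T →ₗ[E] W'' := p.domRestrict (LinearMap.ker T) with hf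
  have e := LinearMap.finrank_range_add_finrank_ker f
  have a1 : LinearMap.range f ≤ LinearMap.ker T'' := by
    rintro _ ⟨x, rfl⟩
    rw [LinearMap.mem_ker]
    have h3 := LinearMap.congr_fun h2 x
    have h4 : T x = 0 := x.2
    simp only [LinearMap.comp_apply, h4, map_zero] at h3
    exact h3.symm
  have a2 : finrank E (LinearMap.range f) ≤ finrank E (LinearMap.ker T'') := Submodule.finrank_mono a1
  have b1 : (LinearMap.ker f).map (LinearMap.ker T).subtype ≤ (LinearMap.ker T').map i := by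
    rintro _ ⟨x, hx, rfl⟩
    have hx' : p x = 0 := hx
    obtain ⟨y, hy⟩ := (hex x).1 hx'
    refine ⟨y, ?_, hy⟩
    have h3 := LinearMap.congr_fun h1 y
    simp only [LinearMap.comp_apply, hy] at h3
    have h4 : T x = 0 := x.2
    rw [h4] at h3
    exact hi (by rw [← h3, map_zero])
  have b2 : finrank E (LinearMap.ker f) ≤ finrank E (LinearMap.ker T') := by
    have h3 := Submodule.finrank_mono b1
    rw [Submodule.finrank_map_subtype_eq] at h3
    exact h3.trans (Submodule.finrank_map_le _ _)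
  omega

lemma kap_ext {i : W' →ₗ[E] W} {p : W →ₗ[E] W''} (hex : Function.Exact i p) (hi : Function.Injective i)
    {T' : W' →ₗ[E] W'} {T : W →ₗ[E] W} {T'' : W'' →ₗ[E] W''} (h1 : T ∘ₗ i = i ∘ₗ T')
    (h2 : p ∘ₗ T = T'' ∘ₗ p) (k : ℕ) (μ : E) : kap T k μ ≤ kap T' k μ + kap T'' k μ :=
  ker_ext hex hi (pow_comm h1 μ k) (pow_comm h2.symm μ k).symm

end ext

section tensor

variable {A V S : Type} [AddCommGroup A] [Module E A] [AddCommGroup V] [Module E V]
  [AddCommGroup S] [Module E S] [FiniteDimensional E A] [FiniteDimensional E V] [FiniteDimensional E S]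

/-- the induced map on the quotient by an invariant subspace -/
noncomputable def quo {j : S →ₗ[E] V} {F : V →ₗ[E] V} {FS : S →ₗ[E] S} (h : F ∘ₗ j = j ∘ₗ FS) :
    (V ⧸ LinearMap.range j) →ₗ[E] (V ⧸ LinearMap.range j) :=
  Submodule.mapQ (LinearMap.range j) (LinearMap.range j) F (by
    rintro _ ⟨x, rfl⟩
    exact ⟨FS x, (LinearMap.congr_fun h x).symm⟩)

lemma kap_tensor {j : S →ₗ[E] V} (hj : Function.Injective j) {F : V →ₗ[E] V} {FS : S →ₗ[E] S}
    (h : F ∘ₗ j = j ∘ₗ FS) (G : A →ₗ[E] A) (k : ℕ) (μ : E) :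
    kap (TensorProduct.map G F) k μ ≤ kap (TensorProduct.map G FS) k μ +
      kap (TensorProduct.map G (quo h)) k μ := by
  have hex : Function.Exact j (LinearMap.range j).mkQ := by
    intro x
    rw [← LinearMap.mem_ker, Submodule.ker_mkQ]
    rfl
  refine kap_ext (i := LinearMap.lTensor A j) (p := LinearMap.lTensor A (LinearMap.range j).mkQ) ?_ ?_ ?_ ?_ k μ
  · exact lTensor_exact A hex (Submodule.mkQ_surjective _)
  · exact Module.Flat.lTensor_preserves_injective_linearMap j hj
  · ext a x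
    have := LinearMap.congr_fun h x
    simp only [LinearMap.comp_apply] at this
    simp [this]
  · ext a x
    simp [quo]

omit [FiniteDimensional E A] in
lemma kap_line (G : A →ₗ[E] A) {l : E} (hl : l ≠ 0) (k : ℕ) (μ : E) :
    kap (TensorProduct.map G (l • (1 : Module.End E E))) k μ = kap G k (μ * l⁻¹) := by
  have h1 : kap (TensorProduct.map G (l • (1 : Module.End E E))) k μ = kap (l • G) k μ := by
    refine kap_congr (TensorProduct.rid E A).symm (fun x => ?_) k μ
    rw [TensorProduct.rid_symm_apply, TensorProduct.rid_symm_apply, TensorProduct.map_tmul]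
    simp [TensorProduct.smul_tmul]
  rw [h1]
  unfold kap
  have h2 : (l • G - μ • (1 : Module.End E A)) = l • (G - (μ * l⁻¹) • (1 : Module.End E A)) := by
    rw [smul_sub, smul_smul]
    congr 2
    field_simp
  rw [h2, smul_pow, LinearMap.ker_smul _ _ (pow_ne_zero k hl)]

/-- a Jordan block of size two -/
def blk (l c : E) : (E × E) →ₗ[E] (E × E) :=
  LinearMap.prod (l • LinearMap.fst E E E + c • LinearMap.snd E E E) (l • LinearMap.snd E E E)

/-- the operator `(x, y) ↦ (l G x + c G y, l G y)` -/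
noncomputable def opB (G : A →ₗ[E] A) (l c : E) : (A × A) →ₗ[E] (A × A) :=
  LinearMap.prod (l • (G ∘ₗ LinearMap.fst E A A) + c • (G ∘ₗ LinearMap.snd E A A))
    (l • (G ∘ₗ LinearMap.snd E A A))

omit [FiniteDimensional E A] in
lemma opB_apply (G : A →ₗ[E] A) (l c : E) (x y : A) :
    opB G l c (x, y) = (l • G x + c • G y, l • G y) := rfl

/-- coordinates on `A ⊗ (E × E)` -/
noncomputable def eqB : (A × A) ≃ₗ[E] (A ⊗[E] (E × E)) :=
  (LinearEquiv.prodCongr (TensorProduct.rid E A).symm (TensorProduct.rid E A).symm).trans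
    (TensorProduct.prodRight E E A E E).symm

omit [FiniteDimensional E A] in
lemma eqB_apply (x y : A) : eqB (x, y) = x ⊗ₜ[E] ((1, 0) : E × E) + y ⊗ₜ[E] ((0, 1) : E × E) := by
  unfold eqB
  rw [LinearEquiv.trans_apply, LinearEquiv.symm_apply_eq]
  simp

omit [FiniteDimensional E A] in
lemma kap_blk_eq (G : A →ₗ[E] A) (l c : E) (k : ℕ) (μ : E) :
    kap (TensorProduct.map G (blk l c)) k μ = kap (opB G l c) k μ := by
  refine kap_congr eqB (fun x => ?_) k μ
  obtain ⟨x, y⟩ := x
  rw [opB_apply, eqB_apply, eqB_apply, map_add, TensorProduct.map_tmul, TensorProduct.map_tmul]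
  have h1 : blk l c (1, 0) = l • ((1, 0) : E × E) := by simp [blk]
  have h2 : blk l c (0, 1) = c • ((1, 0) : E × E) + l • ((0, 1) : E × E) := by simp [blk]
  rw [h1, h2, TensorProduct.tmul_add, TensorProduct.add_tmul, TensorProduct.tmul_smul,
    TensorProduct.tmul_smul, TensorProduct.tmul_smul, TensorProduct.smul_tmul', TensorProduct.smul_tmul',
    TensorProduct.smul_tmul']
  abel

omit [FiniteDimensional E A] in
lemma opB_pow (G : A →ₗ[E] A) {l : E} (hl : l ≠ 0) (c μ : E) (k : ℕ) : ∀ x y : A,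
    ((opB G l c - μ • (1 : Module.End E (A × A))) ^ (k + 1)) (x, y) =
      (l ^ k • (((G - (μ * l⁻¹) • (1 : Module.End E A)) ^ k)
        (l • (G - (μ * l⁻¹) • (1 : Module.End E A)) x + (((k : E) + 1) * c) • G y)),
      l ^ (k + 1) • ((G - (μ * l⁻¹) • (1 : Module.End E A)) ^ (k + 1)) y) := by
  set P : Module.End E A := G - (μ * l⁻¹) • (1 : Module.End E A) with hP
  have hPx : ∀ x, P x = G x - (μ * l⁻¹) • x := fun x => rfl
  have hcomm : ∀ x, G (P x) = P (G x) := by
    intro x
    rw [hPx, hPx, map_sub, map_smul]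
  have h1 : ∀ x y : A, (opB G l c - μ • (1 : Module.End E (A × A))) (x, y) =
      (l • P x + c • G y, l • P y) := by
    intro x y
    rw [LinearMap.sub_apply, opB_apply, LinearMap.smul_apply, Module.End.one_apply, hPx, hPx]
    refine Prod.ext ?_ ?_
    · simp only [Prod.fst_sub, Prod.smul_fst, smul_sub, smul_smul]
      have : l * (μ * l⁻¹) = μ := by field_simp
      rw [this]; abel
    · simp only [Prod.snd_sub, Prod.smul_snd, smul_sub, smul_smul]
      have : l * (μ * l⁻¹) = μ := by field_simp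
      rw [this]
  induction k with
  | zero =>
    intro x y
    rw [zero_add, pow_one, h1]
    simp
  | succ k ih =>
    intro x y
    rw [pow_succ, Module.End.mul_apply, h1, ih]
    refine Prod.ext ?_ ?_
    · show l ^ k • (P ^ k) (l • P (l • P x + c • G y) + (((k : E) + 1) * c) • G (l • P y)) =
        l ^ (k + 1) • (P ^ (k + 1)) (l • P x + ((((k + 1 : ℕ) : E) + 1) * c) • G y)
      rw [pow_succ P k, Module.End.mul_apply, map_smul G, hcomm]
      simp only [map_add, map_smul]
      push_cast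
      module
    · show l ^ (k + 1) • (P ^ (k + 1)) (l • P y) = l ^ (k + 1 + 1) • (P ^ (k + 1 + 1)) y
      rw [map_smul, smul_smul, ← pow_succ, pow_succ P (k + 1), Module.End.mul_apply]

lemma kap_blk {G : A →ₗ[E] A} (hG : Function.Injective G) {l c : E} (hl : l ≠ 0) (hc : c ≠ 0) (k : ℕ)
    (hk : ((k : E) + 1) ≠ 0) (μ : E) :
    kap (TensorProduct.map G (blk l c)) (k + 1) μ ≤ kap G k (μ * l⁻¹) + kap G (k + 2) (μ * l⁻¹) := by
  rw [kap_blk_eq]
  unfold kap
  have key := opB_pow G hl c μ k
  set P : Module.End E A := G - (μ * l⁻¹) • (1 : Module.End E A) with hP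
  have hPx : ∀ x, P x = G x - (μ * l⁻¹) • x := fun x => rfl
  have hcomm : ∀ x, G (P x) = P (G x) := by
    intro x
    rw [hPx, hPx, map_sub, map_smul]
  have hcommk : ∀ k x, G ((P ^ k) x) = (P ^ k) (G x) := by
    intro k
    induction k with
    | zero => intro x; simp
    | succ k ih =>
      intro x
      rw [pow_succ, Module.End.mul_apply, Module.End.mul_apply, ih, hcomm]
  -- the comparison map
  set φ : (A × A) →ₗ[E] (A × A) := LinearMap.prod
    (l • (P ∘ₗ LinearMap.fst E A A) + (((k : E) + 1) * c) • (G ∘ₗ LinearMap.snd E A A)) (LinearMap.fst E A A)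
    with hφ
  have hφx : ∀ x y, φ (x, y) = (l • P x + (((k : E) + 1) * c) • G y, x) := fun x y => rfl
  have hinj : Function.Injective φ := by
    rw [← LinearMap.ker_eq_bot, LinearMap.ker_eq_bot']
    rintro ⟨x, y⟩ h
    rw [hφx, Prod.mk_eq_zero] at h
    obtain ⟨h1, rfl⟩ := h
    rw [map_zero, smul_zero, zero_add, smul_eq_zero] at h1
    have h2 := h1.resolve_left (mul_ne_zero hk hc)
    rw [(map_eq_zero_iff G hG).1 h2]
    rfl
  set T := LinearMap.ker ((opB G l c - μ • (1 : Module.End E (A × A))) ^ (k + 1)) with hT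
  have h1 : ∀ v : T, (φ v).1 ∈ LinearMap.ker (P ^ k) ∧ (φ v).2 ∈ LinearMap.ker (P ^ (k + 2)) := by
    rintro ⟨⟨x, y⟩, hx⟩
    rw [hT, LinearMap.mem_ker, key, Prod.mk_eq_zero] at hx
    obtain ⟨h2, h3⟩ := hx
    have h4 := (smul_eq_zero.1 h2).resolve_left (pow_ne_zero k hl)
    have h5 := (smul_eq_zero.1 h3).resolve_left (pow_ne_zero (k + 1) hl)
    rw [hφx]
    refine ⟨h4, ?_⟩
    rw [LinearMap.mem_ker]
    have h6 : P ((P ^ k) (l • P x + (((k : E) + 1) * c) • G y)) = 0 := by
      have : (P ^ k) (l • P x + (((k : E) + 1) * c) • G y) = 0 := h4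
      rw [this, map_zero]
    rw [← Module.End.mul_apply, ← pow_succ', map_add, map_smul, map_smul, ← hcommk, h5, map_zero, smul_zero,
      add_zero, ← Module.End.mul_apply, ← pow_succ] at h6
    exact (smul_eq_zero.1 h6).resolve_left hl
  set f : T →ₗ[E] (LinearMap.ker (P ^ k)) × (LinearMap.ker (P ^ (k + 2))) := LinearMap.prod
    (((LinearMap.fst E A A ∘ₗ φ).domRestrict T).codRestrict _ fun v => (h1 v).1)
    (((LinearMap.snd E A A ∘ₗ φ).domRestrict T).codRestrict _ fun v => (h1 v).2) with hf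
  have hfi : Function.Injective f := by
    intro v w hvw
    have e1 := congrArg (fun z => ((z.1 : LinearMap.ker (P ^ k)) : A)) hvw
    have e2 := congrArg (fun z => ((z.2 : LinearMap.ker (P ^ (k + 2))) : A)) hvw
    exact Subtype.ext (hinj (Prod.ext e1 e2))
  have h2 := LinearMap.finrank_le_finrank_of_injective hfi
  rwa [Module.finrank_prod] at h2

end tensor

end Pool.Agent.D0H15.ZO
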