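import Pool.Agent.D0H15.ZO.Fin
import Pool.Agent.D0H15.ZO.Defs

/-!
The zero-one law.
-/

set_option autoImplicit false
set_option linter.unusedSectionVars false

open Module TensorProduct Finset Filter
open scoped Topology

namespace Pool.Agent.D0H15.ZO

variable {E : Type} [Field E] [IsAlgClosed E] [CharZero E]

/-- the complete case -/
theorem complete_law (b : ℕ) : ∃ C : ℝ, ∀ X : CompleteVar E, finrank E X.V = b → ¬ X.F.IsSemisimple →
    ∀ (Y : CompleteVar E) (n : ℕ), 1 ≤ n → SSBound (pw Y.F X.F n) (C / Real.sqrt n) := by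
  classical
  by_cases hb : 2 ≤ b
  swap
  · refine ⟨0, fun X hX hns => ?_⟩
    obtain ⟨m, -, -, hm, -⟩ := main_bound X.inj X.inj hns
    omega
  have hbr : (2 : ℝ) ≤ b := by exact_mod_cast hb
  obtain ⟨C, hC0, hC⟩ := decay 0 (θ := 1 - 1 / (2 * (b : ℝ))) (by
    have : 1 / (2 * (b : ℝ)) ≤ 1 / 4 := by
      apply one_div_le_one_div_of_le <;> linarith
    linarith) (by
    have : 0 < 1 / (2 * (b : ℝ)) := by positivity
    linarith)
  refine ⟨Real.sqrt (2 * b) + C, fun X hX hns Y n hn p hp hs => ?_⟩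
  obtain ⟨m, lam, lY, hm, -, -, -, -, hmain⟩ := main_bound Y.inj X.inj hns
  obtain ⟨Q, hQ⟩ := finrank_ss hp hs
  have hbm : (b : ℝ) = (m : ℝ) + 2 := by rw [← hX, hm]; push_cast; ring
  have h1 : (finrank E p : ℝ) ≤ ((∑ μ ∈ Q, kap (pw Y.F X.F n) 1 μ : ℕ) : ℝ) := by exact_mod_cast hQ
  have h2 := h1.trans (hmain n hn Q)
  rw [← hbm] at h2
  have hn' : (0 : ℝ) < n := by exact_mod_cast hn
  have hD : (finrank E (Y.V ⊗[E] (⨂[E]^n X.V)) : ℝ) = finrank E Y.V * (b : ℝ) ^ n := by
    rw [finrank_pw, hX]; push_cast; ring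
  have h3 : ((univ.filter fun t : Fin (finrank E Y.V) × (Fin n → (Bool ⊕ Fin m)) => vl lY lam t ∈ Q).card : ℝ) ≤
      finrank E Y.V * (b : ℝ) ^ n := by
    have h4 := card_le_card (filter_subset (fun t : Fin (finrank E Y.V) × (Fin n → (Bool ⊕ Fin m)) => vl lY lam t ∈ Q) univ)
    rw [card_univ, Fintype.card_prod, Fintype.card_fun, Fintype.card_sum, Fintype.card_bool, Fintype.card_fin,
        Fintype.card_fin, Fintype.card_fin, add_comm 2 m, ← hm, hX] at h4
    exact_mod_cast h4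
  have h5 := hC n hn
  rw [pow_zero, one_mul] at h5
  rw [hD]
  have h6 : Real.sqrt (2 * b / n) = Real.sqrt (2 * b) / Real.sqrt n := Real.sqrt_div (by positivity) _
  rw [h6] at h2
  have h7 : 0 ≤ Real.sqrt (2 * b) / Real.sqrt n := by positivity
  have h8 : (0 : ℝ) ≤ finrank E Y.V * (b : ℝ) ^ n := by positivity
  calc (finrank E p : ℝ) ≤ _ := h2
    _ ≤ Real.sqrt (2 * b) / Real.sqrt n * (finrank E Y.V * (b : ℝ) ^ n) + finrank E Y.V * (b : ℝ) ^ n * (C / Real.sqrt n) :=
        add_le_add (mul_le_mul_of_nonneg_left h3 h7) (mul_le_mul_of_nonneg_left h5 h8)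
    _ = (Real.sqrt (2 * b) + C) / Real.sqrt n * (finrank E Y.V * (b : ℝ) ^ n) := by ring

lemma q_inj {q : ℕ} (hq : 2 ≤ q) : Function.Injective fun i : ℕ => (q : E) ^ i := by
  intro i j h
  have h1 : (q : E) ^ i = (q : E) ^ j := h
  have h2 : q ^ i = q ^ j := by exact_mod_cast h1
  exact Nat.pow_right_injective hq h2

/-- the smooth case -/
theorem smooth_law (b b' : ℕ) : ∃ C : ℝ, ∀ q : ℕ, 2 ≤ q → ∀ X : SmoothVar E q, finrank E X.V = b →
    ¬ X.F.IsSemisimple → ∀ Y : SmoothVar E q, finrank E Y.V = b' → ∀ n : ℕ, 1 ≤ n →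
      0 < poleOrder Y X n ∧ (tateDim Y X n : ℝ) ≤ C / Real.sqrt n * poleOrder Y X n := by
  classical
  by_cases hb : 2 ≤ b
  swap
  · refine ⟨0, fun q hq X hX hns => ?_⟩
    obtain ⟨m, -, -, hm, -⟩ := main_bound X.inj X.inj hns
    omega
  have hbr : (2 : ℝ) ≤ b := by exact_mod_cast hb
  obtain ⟨C, hC0, hC⟩ := decay b (θ := 1 - 1 / (2 * (b : ℝ))) (by
    have : 1 / (2 * (b : ℝ)) ≤ 1 / 4 := by
      apply one_div_le_one_div_of_le <;> linarith
    linarith) (by
    have : 0 < 1 / (2 * (b : ℝ)) := by positivity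
    linarith)
  refine ⟨Real.sqrt (2 * b) + b' * b * C, fun q hq X hX hns Y hY n hn => ?_⟩
  obtain ⟨m, lam, lY, hm, hlam, hXc, hYc, hc, hmain⟩ := main_bound Y.inj X.inj hns
  have hbm : (b : ℝ) = (m : ℝ) + 2 := by rw [← hX, hm]; push_cast; ring
  have hn' : (0 : ℝ) < n := by exact_mod_cast hn
  have hq0 : (q : E) ≠ 0 := by exact_mod_cast (show q ≠ 0 by omega)
  set c : E := (q : E) ^ X.dim with hcdef
  have hc0 : c ≠ 0 := pow_ne_zero _ hq0
  set R := Finset.range (Y.dim + n * X.dim + 1) with hR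
  set Q : Finset E := R.image fun i : ℕ => (q : E) ^ i with hQ
  -- the sums over the integers are sums over the values
  have hT : tateDim Y X n = ∑ μ ∈ Q, kap (pw Y.F X.F n) 1 μ := by
    rw [hQ, sum_image fun i _ j _ h => q_inj hq h]
    unfold tateDim eigSum
    refine sum_congr rfl fun i _ => ?_
    rw [kap_one]
    rfl
  have hZ : poleOrder Y X n = (univ.filter fun t : Fin (finrank E Y.V) × (Fin n → (Bool ⊕ Fin m)) => vl lY lam t ∈ Q).card := by
    have h1 : poleOrder Y X n = ∑ μ ∈ Q, finrank E (Module.End.maxGenEigenspace (pw Y.F X.F n) μ) := by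
      rw [hQ, sum_image fun i _ j _ h => q_inj hq h]
      rfl
    rw [h1, sum_congr rfl fun μ _ => hc n μ]
    rw [card_eq_sum_card_fiberwise (f := vl lY lam) (t := Q) (fun t ht => by
      rw [mem_coe, mem_filter] at ht
      exact ht.2)]
    refine sum_congr rfl fun μ hμ => ?_
    congr 1
    ext t
    simp only [mem_filter, mem_univ, true_and]
    constructor
    · intro h; exact ⟨by rw [h]; exact hμ, h⟩
    · intro h; exact h.2
  -- duality
  have hsym : Sym lam c := by
    refine sym_of_card hc0 hlam fun μ hμ => ?_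
    rw [← hXc, ← hXc, Module.End.maxGenEigenspace_eq_genEigenspace_finrank,
      Module.End.maxGenEigenspace_eq_genEigenspace_finrank, Module.End.genEigenspace_nat, Module.End.genEigenspace_nat]
    obtain ⟨B, hnd, hBF⟩ := X.duality
    refine le_antisymm (dual_le X.inj hnd hBF hμ _) ?_
    have h2 := dual_le (μ := c * μ⁻¹) X.inj hnd hBF (mul_ne_zero hc0 (inv_ne_zero hμ)) (finrank E X.V)
    have h3 : (q : E) ^ X.dim * (c * μ⁻¹)⁻¹ = μ := by
      rw [← hcdef]; field_simp
    rw [h3] at h2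
    exact h2
  -- the eigenvalue one
  have hone : ∀ {W : Type} [AddCommGroup W] [Module E W] [FiniteDimensional E W] (F : Module.End E W) (w : W),
      w ≠ 0 → F w = w → 0 < finrank E (F.maxGenEigenspace 1) := by
    intro W _ _ _ F w hw hFw
    have h1 : w ∈ F.eigenspace 1 := by rw [Module.End.mem_eigenspace_iff, hFw, one_smul]
    have h2 : w ∈ F.maxGenEigenspace 1 := (F.genEigenspace 1).mono le_top h1
    rw [Module.finrank_pos_iff]
    exact ⟨⟨⟨w, h2⟩, 0, fun h => hw (congrArg Subtype.val h)⟩⟩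
  obtain ⟨i₀, hi₀⟩ : ∃ i, lam i = 1 := by
    obtain ⟨w, hw, hFw⟩ := X.unit
    have h1 := hone X.F w hw hFw
    rw [hXc] at h1
    obtain ⟨i, hi⟩ := card_pos.1 h1
    exact ⟨i, (mem_filter.1 hi).2⟩
  obtain ⟨y₀, hy₀⟩ : ∃ y, lY y = 1 := by
    obtain ⟨w, hw, hFw⟩ := Y.unit
    have h1 := hone Y.F w hw hFw
    rw [hYc] at h1
    obtain ⟨i, hi⟩ := card_pos.1 h1
    exact ⟨i, (mem_filter.1 hi).2⟩
  -- the lower bound
  have hlow : (b : ℝ) ^ n ≤ b * ((n : ℝ) + 1) ^ b * poleOrder Y X n := by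
    have hcard : Fintype.card (Bool ⊕ Fin m) = b := by
      rw [Fintype.card_sum, Fintype.card_bool, Fintype.card_fin, ← hX, hm, add_comm]
    have h1 : ∀ k, 2 * k ≤ n → NN lam n (c ^ k) ≤ poleOrder Y X n := by
      intro k hk
      rw [hZ]
      unfold NN
      refine card_le_card_of_injOn (fun f => (y₀, f)) ?_ ?_
      · intro f hf
        rw [mem_coe, mem_filter] at hf ⊢
        refine ⟨mem_univ _, ?_⟩
        show lY y₀ * ∏ a, lam (f a) ∈ Q
        rw [hy₀, one_mul, hf.2, hQ, mem_image]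
        refine ⟨X.dim * k, ?_, ?_⟩
        · rw [hR, mem_range]
          have : X.dim * k ≤ X.dim * n := Nat.mul_le_mul_left _ (by omega)
          nlinarith
        · rw [hcdef, ← pow_mul]
      · intro f _ g _ h
        exact (Prod.mk.inj h).2
    have h2 := fun k => NN_middle hc0 hlam hsym k
    rw [hcard] at h2
    rcases Nat.even_or_odd' n with ⟨k, hk | hk⟩
    · have h3 := h2 k
      have e : k + k = n := by omega
      rw [e] at h3
      have h4 : b ^ n ≤ (k + 1) ^ b * poleOrder Y X n := h3.trans (Nat.mul_le_mul_left _ (h1 k (by omega)))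
      have h5 : b ^ n ≤ b * (n + 1) ^ b * poleOrder Y X n := by
        refine h4.trans (Nat.mul_le_mul_right _ ?_)
        calc (k + 1) ^ b ≤ (n + 1) ^ b := Nat.pow_le_pow_left (by omega) _
          _ = 1 * (n + 1) ^ b := (one_mul _).symm
          _ ≤ b * (n + 1) ^ b := Nat.mul_le_mul_right _ (by omega)
      exact_mod_cast h5
    · have h3 := h2 k
      have h3' : b ^ (k + k) ≤ (k + 1) ^ b * NN lam (k + k + 1) (c ^ k) :=
        h3.trans (Nat.mul_le_mul_left _ (NN_mono lam hlam hi₀ _ _))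
      have e : k + k + 1 = n := by omega
      rw [e] at h3'
      have h4 : b ^ (k + k) ≤ (k + 1) ^ b * poleOrder Y X n := h3'.trans (Nat.mul_le_mul_left _ (h1 k (by omega)))
      have h5 : b ^ n ≤ b * (n + 1) ^ b * poleOrder Y X n := by
        calc b ^ n = b * b ^ (k + k) := by rw [← e, pow_succ, mul_comm]
          _ ≤ b * ((k + 1) ^ b * poleOrder Y X n) := Nat.mul_le_mul_left _ h4
          _ ≤ b * ((n + 1) ^ b * poleOrder Y X n) :=
              Nat.mul_le_mul_left _ (Nat.mul_le_mul_right _ (Nat.pow_le_pow_left (by omega) _))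
          _ = b * (n + 1) ^ b * poleOrder Y X n := by ring
      exact_mod_cast h5
  have hpos : 0 < poleOrder Y X n := by
    rcases Nat.eq_zero_or_pos (poleOrder Y X n) with h | h
    · rw [h, Nat.cast_zero, mul_zero] at hlow
      have : (0 : ℝ) < (b : ℝ) ^ n := by positivity
      linarith
    · exact h
  refine ⟨hpos, ?_⟩
  have h2 := hmain n hn Q
  rw [← hbm, ← hT, ← hZ, hY] at h2
  have h6 : Real.sqrt (2 * b / n) = Real.sqrt (2 * b) / Real.sqrt n := Real.sqrt_div (by positivity) _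
  rw [h6] at h2
  have h7 : (b' : ℝ) * (b : ℝ) ^ n * (1 - 1 / (2 * (b : ℝ))) ^ n ≤
      b' * b * (C / Real.sqrt n) * poleOrder Y X n := by
    have hth : (0 : ℝ) ≤ (1 - 1 / (2 * (b : ℝ))) ^ n := by
      apply pow_nonneg
      have : 1 / (2 * (b : ℝ)) ≤ 1 / 4 := by
        apply one_div_le_one_div_of_le <;> linarith
      linarith
    calc (b' : ℝ) * (b : ℝ) ^ n * (1 - 1 / (2 * (b : ℝ))) ^ n
        ≤ b' * (b * ((n : ℝ) + 1) ^ b * poleOrder Y X n) * (1 - 1 / (2 * (b : ℝ))) ^ n := by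
          apply mul_le_mul_of_nonneg_right _ hth
          exact mul_le_mul_of_nonneg_left hlow (Nat.cast_nonneg _)
      _ = b' * b * poleOrder Y X n * (((n : ℝ) + 1) ^ b * (1 - 1 / (2 * (b : ℝ))) ^ n) := by ring
      _ ≤ b' * b * poleOrder Y X n * (C / Real.sqrt n) := mul_le_mul_of_nonneg_left (hC n hn) (by positivity)
      _ = _ := by ring
  calc (tateDim Y X n : ℝ) ≤ _ := h2
    _ ≤ Real.sqrt (2 * b) / Real.sqrt n * poleOrder Y X n + b' * b * (C / Real.sqrt n) * poleOrder Y X n :=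
        add_le_add le_rfl h7
    _ = (Real.sqrt (2 * b) + b' * b * C) / Real.sqrt n * poleOrder Y X n := by ring

end Pool.Agent.D0H15.ZO
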