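import Pool.Agent.D0H15.ZO.Est

/-!
Tensor powers.
-/

set_option autoImplicit false
set_option linter.unusedSectionVars false

open Module TensorProduct Finset Filter
open scoped Topology

namespace Pool.Agent.D0H15.ZO

variable {E : Type} [Field E]

section pow
variable {V A : Type} [AddCommGroup V] [Module E V] [FiniteDimensional E V]
  [AddCommGroup A] [Module E A] [FiniteDimensional E A]

/-- the endomorphism `G ⊗ F ⊗ ... ⊗ F` of `A ⊗ V ^ n` -/
noncomputable def pw (G : A →ₗ[E] A) (F : V →ₗ[E] V) (n : ℕ) : (A ⊗[E] (⨂[E]^n V)) →ₗ[E] (A ⊗[E] (⨂[E]^n V)) :=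
  TensorProduct.map G (PiTensorProduct.map fun _ => F)

variable (E V) in
/-- `V ^ n ⊗ V = V ^ (n + 1)` -/
noncomputable def sn (n : ℕ) : ((⨂[E]^n V) ⊗[E] V) ≃ₗ[E] (⨂[E]^(n + 1) V) :=
  (LinearEquiv.lTensor (⨂[E]^n V) (PiTensorProduct.subsingletonEquiv (R := E) (s := fun _ : Fin 1 => V) 0).symm).trans
    TensorPower.mulEquiv

lemma sn_tmul (n : ℕ) (a : Fin n → V) (v : V) :
    sn E V n (PiTensorProduct.tprod E a ⊗ₜ[E] v) = PiTensorProduct.tprod E (Fin.append a (fun _ : Fin 1 => v)) := by
  unfold sn
  rw [LinearEquiv.trans_apply, LinearEquiv.lTensor_tmul, PiTensorProduct.subsingletonEquiv_symm_apply']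
  exact TensorPower.tprod_mul_tprod E a (fun _ => v)

lemma sn_map (F : V →ₗ[E] V) (n : ℕ) (x : (⨂[E]^n V) ⊗[E] V) :
    PiTensorProduct.map (fun _ => F) (sn E V n x) =
      sn E V n (TensorProduct.map (PiTensorProduct.map fun _ => F) F x) := by
  induction x with
  | zero => simp
  | add x y hx hy => rw [map_add, map_add, map_add, map_add, hx, hy]
  | tmul t v =>
    induction t using PiTensorProduct.induction_on with
    | smul_tprod r a =>
      rw [← TensorProduct.smul_tmul', map_smul, map_smul, map_smul, map_smul, sn_tmul, TensorProduct.map_tmul,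
        PiTensorProduct.map_tprod, PiTensorProduct.map_tprod, sn_tmul]
      congr 2
      funext i
      refine Fin.addCases (fun i => ?_) (fun i => ?_) i
      · rw [Fin.append_left, Fin.append_left]
      · rw [Fin.append_right, Fin.append_right]
    | add x y hx hy =>
      rw [TensorProduct.add_tmul, map_add, map_add, map_add, map_add, hx, hy]

variable (E V A) in
/-- `(A ⊗ V ^ n) ⊗ V = A ⊗ V ^ (n + 1)` -/
noncomputable def tw (n : ℕ) : ((A ⊗[E] (⨂[E]^n V)) ⊗[E] V) ≃ₗ[E] (A ⊗[E] (⨂[E]^(n + 1) V)) :=
  (TensorProduct.assoc E A (⨂[E]^n V) V).trans (LinearEquiv.lTensor A (sn E V n))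

lemma tw_map (G : A →ₗ[E] A) (F : V →ₗ[E] V) (n : ℕ) (x : (A ⊗[E] (⨂[E]^n V)) ⊗[E] V) :
    pw G F (n + 1) (tw E V A n x) = tw E V A n (TensorProduct.map (pw G F n) F x) := by
  have h : (pw G F (n + 1)) ∘ₗ (tw E V A n).toLinearMap =
      (tw E V A n).toLinearMap ∘ₗ (TensorProduct.map (pw G F n) F) := by
    refine TensorProduct.ext_threefold fun a t v => ?_
    simp only [LinearMap.comp_apply, LinearEquiv.coe_coe]
    unfold tw pw
    rw [LinearEquiv.trans_apply, TensorProduct.assoc_tmul, LinearEquiv.lTensor_tmul, TensorProduct.map_tmul,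
      TensorProduct.map_tmul, TensorProduct.map_tmul, LinearEquiv.trans_apply, TensorProduct.assoc_tmul,
      LinearEquiv.lTensor_tmul, sn_map, TensorProduct.map_tmul]
  exact LinearMap.congr_fun h x

variable (E V A) in
/-- `A ⊗ V ^ 0 = A` -/
noncomputable def bs : (A ⊗[E] (⨂[E]^0 V)) ≃ₗ[E] A :=
  (LinearEquiv.lTensor A (PiTensorProduct.isEmptyEquiv (R := E) (s := fun _ : Fin 0 => V) (Fin 0))).trans
    (TensorProduct.rid E A)

lemma bs_map (G : A →ₗ[E] A) (F : V →ₗ[E] V) (x : A ⊗[E] (⨂[E]^0 V)) :
    G (bs E V A x) = bs E V A (pw G F 0 x) := by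
  have h : G ∘ₗ (bs E V A).toLinearMap = (bs E V A).toLinearMap ∘ₗ (pw G F 0) := by
    refine TensorProduct.ext' fun a t => ?_
    simp only [LinearMap.comp_apply, LinearEquiv.coe_coe]
    induction t using PiTensorProduct.induction_on with
    | smul_tprod r f =>
      unfold bs pw
      rw [TensorProduct.map_tmul, LinearEquiv.trans_apply, LinearEquiv.trans_apply, LinearEquiv.lTensor_tmul,
        LinearEquiv.lTensor_tmul, TensorProduct.rid_tmul, TensorProduct.rid_tmul, map_smul, map_smul, map_smul, map_smul,
        PiTensorProduct.map_tprod, PiTensorProduct.isEmptyEquiv_apply_tprod, PiTensorProduct.isEmptyEquiv_apply_tprod]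
    | add x y hx hy =>
      rw [TensorProduct.tmul_add, map_add, map_add, map_add, map_add, hx, hy]
  exact LinearMap.congr_fun h x

lemma map_inj {V' A' : Type} [AddCommGroup V'] [Module E V'] [FiniteDimensional E V']
    [AddCommGroup A'] [Module E A'] [FiniteDimensional E A'] {G : A' →ₗ[E] A'} {F : V' →ₗ[E] V'}
    (hG : Function.Injective G) (hF : Function.Injective F) :
    Function.Injective (TensorProduct.map G F) := by
  have h : TensorProduct.map G F = (TensorProduct.congr (LinearEquiv.ofInjectiveEndo G hG)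
      (LinearEquiv.ofInjectiveEndo F hF)).toLinearMap := by
    refine TensorProduct.ext' fun a v => ?_
    simp
  rw [h]
  exact LinearEquiv.injective _

lemma pw_inj {G : A →ₗ[E] A} {F : V →ₗ[E] V} (hG : Function.Injective G) (hF : Function.Injective F) :
    ∀ n, Function.Injective (pw G F n) := by
  intro n
  induction n with
  | zero =>
    intro x y h
    apply (bs E V A).injective
    apply hG
    rw [bs_map G F, bs_map G F, h]
  | succ n ih =>
    intro x y h
    obtain ⟨x, rfl⟩ := (tw E V A n).surjective x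
    obtain ⟨y, rfl⟩ := (tw E V A n).surjective y
    rw [tw_map, tw_map] at h
    rw [map_inj ih hF ((tw E V A n).injective h)]

lemma finrank_pw (n : ℕ) : finrank E (A ⊗[E] (⨂[E]^n V)) = finrank E A * finrank E V ^ n := by
  induction n with
  | zero => rw [(bs E V A).finrank_eq]; simp
  | succ n ih =>
    rw [← (tw E V A n).finrank_eq, Module.finrank_tensorProduct, ih]
    ring

/-- tensor products of semisimple endomorphisms -/
lemma map_ss [IsAlgClosed E] {V' A' : Type} [AddCommGroup V'] [Module E V'] [FiniteDimensional E V']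
    [AddCommGroup A'] [Module E A'] [FiniteDimensional E A'] {G : Module.End E A'} {F : Module.End E V'}
    (hG : G.IsSemisimple) (hF : F.IsSemisimple) :
    Module.End.IsSemisimple (TensorProduct.map G F) := by
  apply ss_of_iSup
  rw [eq_top_iff]
  intro x _
  induction x with
  | zero => exact zero_mem _
  | add x y hx hy => exact add_mem (hx trivial) (hy trivial)
  | tmul a v =>
    have ha : a ∈ ⨆ μ : E, G.eigenspace μ := by rw [hG.iSup_eigenspace_eq_top]; trivial
    have hv : v ∈ ⨆ μ : E, F.eigenspace μ := by rw [hF.iSup_eigenspace_eq_top]; trivial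
    induction ha using Submodule.iSup_induction' with
    | zero => rw [TensorProduct.zero_tmul]; exact zero_mem _
    | add x y _ _ hx hy => rw [TensorProduct.add_tmul]; exact add_mem (hx trivial) (hy trivial)
    | mem μ a ha =>
      induction hv using Submodule.iSup_induction' with
      | zero => rw [TensorProduct.tmul_zero]; exact zero_mem _
      | add x y _ _ hx hy => rw [TensorProduct.tmul_add]; exact add_mem (hx trivial) (hy trivial)
      | mem ν v hv =>
        apply Submodule.mem_iSup_of_mem (μ * ν)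
        rw [Module.End.mem_eigenspace_iff] at ha hv ⊢
        rw [TensorProduct.map_tmul, ha, hv, TensorProduct.smul_tmul_smul]

lemma pw_ss [IsAlgClosed E] {G : Module.End E A} {F : Module.End E V} (hG : G.IsSemisimple) (hF : F.IsSemisimple) :
    ∀ n, Module.End.IsSemisimple (pw G F n) := by
  intro n
  induction n with
  | zero =>
    exact (LinearEquiv.isSemisimple_iff (f := pw G F 0) G (bs E V A) (LinearMap.ext fun x => (bs_map G F x).symm)).2 hG
  | succ n ih =>
    exact (LinearEquiv.isSemisimple_iff (f := TensorProduct.map (pw G F n) F) (pw G F (n + 1)) (tw E V A n)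
      (LinearMap.ext fun x => (tw_map G F n x).symm)).1 (map_ss ih hF)

end pow

end Pool.Agent.D0H15.ZO
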