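import Mathlib

/-!
The walk on the half line.
-/

set_option autoImplicit false

open Finset

namespace Pool.Agent.D0H15.ZO

/-- the probability that the simple random walk started at `k` stays positive for `j` steps -/
noncomputable def al : ℕ → ℕ → ℝ
  | 0, 0 => 0
  | 0, _ + 1 => 1
  | _ + 1, 0 => 0
  | j + 1, k + 1 => (al j k + al j (k + 2)) / 2

lemma al_zero (j : ℕ) : al j 0 = 0 := by
  cases j <;> rfl

lemma al_zero_succ (k : ℕ) : al 0 (k + 1) = 1 := rfl

lemma al_succ (j k : ℕ) : al (j + 1) (k + 1) = (al j k + al j (k + 2)) / 2 := rfl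

lemma al_mem (j : ℕ) : ∀ k, 0 ≤ al j k ∧ al j k ≤ 1 := by
  induction j with
  | zero =>
    intro k
    cases k with
    | zero => rw [al_zero]; norm_num
    | succ k => rw [al_zero_succ]; norm_num
  | succ j ih =>
    intro k
    cases k with
    | zero => rw [al_zero]; norm_num
    | succ k =>
      rw [al_succ]
      have h1 := ih k
      have h2 := ih (k + 2)
      constructor <;> linarith

/-- the binomial coefficients in the window -/
def wd (j k : ℕ) (N : ℕ) : ℕ := ∑ i ∈ range N, if j ≤ 2 * i + k ∧ 2 * i < j + k then j.choose i else 0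

lemma wd_ext {j k N M : ℕ} (hN : j + 1 ≤ N) (hM : j + 1 ≤ M) : wd j k N = wd j k M := by
  have h : ∀ N, j + 1 ≤ N → wd j k N = wd j k (j + 1) := by
    intro N hN
    unfold wd
    symm
    apply sum_subset (range_subset_range.2 hN)
    intro i _ hi
    rw [mem_range] at hi
    rw [Nat.choose_eq_zero_of_lt (by omega)]
    simp
  rw [h N hN, h M hM]

lemma wd_rec (j k N : ℕ) (hN : j + 2 ≤ N) : wd (j + 1) (k + 1) N = wd j k N + wd j (k + 2) N := by
  have h1 : wd (j + 1) (k + 1) N = wd (j + 1) (k + 1) (N + 1) := wd_ext (by omega) (by omega)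
  rw [h1]
  unfold wd
  rw [sum_range_succ']
  have h2 : ∀ i, (if j + 1 ≤ 2 * (i + 1) + (k + 1) ∧ 2 * (i + 1) < j + 1 + (k + 1) then (j + 1).choose (i + 1) else 0) =
      (if j ≤ 2 * (i + 1) + k ∧ 2 * i < j + k then j.choose i else 0) +
      (if j ≤ 2 * (i + 1) + k ∧ 2 * i < j + k then j.choose (i + 1) else 0) := by
    intro i
    rw [Nat.choose_succ_succ]
    by_cases h : j ≤ 2 * (i + 1) + k ∧ 2 * i < j + k
    · rw [if_pos h, if_pos h, if_pos (by omega)]
    · rw [if_neg h, if_neg h, if_neg (by omega)]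
  rw [sum_congr rfl fun i _ => h2 i, sum_add_distrib]
  have h3 : ∑ i ∈ range N, (if j ≤ 2 * (i + 1) + k ∧ 2 * i < j + k then j.choose (i + 1) else 0) +
      (if j + 1 ≤ 2 * 0 + (k + 1) ∧ 2 * 0 < j + 1 + (k + 1) then (j + 1).choose 0 else 0) =
      ∑ i ∈ range (N + 1), (if j ≤ 2 * i + k ∧ 2 * i < j + k + 2 then j.choose i else 0) := by
    rw [sum_range_succ']
    congr 1
    · refine sum_congr rfl fun i _ => ?_
      by_cases h : j ≤ 2 * (i + 1) + k ∧ 2 * i < j + k
      · rw [if_pos h, if_pos (by omega)]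
      · rw [if_neg h, if_neg (by omega)]
    · simp only [Nat.choose_zero_right]
      by_cases h : j ≤ k
      · rw [if_pos (by omega), if_pos (by omega)]
      · rw [if_neg (by omega), if_neg (by omega)]
  rw [add_assoc, h3, sum_range_succ, Nat.choose_eq_zero_of_lt (show j < N by omega)]
  simp only [ite_self, add_zero]
  rw [← sum_add_distrib, ← sum_add_distrib]
  refine sum_congr rfl fun i _ => ?_
  split_ifs <;> omega

lemma al_eq (j : ℕ) : ∀ k, al j k = (wd j k (j + 1) : ℝ) / 2 ^ j := by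
  induction j with
  | zero =>
    intro k
    cases k with
    | zero => rw [al_zero]; simp [wd]
    | succ k => rw [al_zero_succ]; simp [wd]
  | succ j ih =>
    intro k
    cases k with
    | zero =>
      rw [al_zero]
      have : wd (j + 1) 0 (j + 1 + 1) = 0 := by
        unfold wd
        apply sum_eq_zero
        intro i _
        rw [if_neg (by omega)]
      rw [this]
      simp
    | succ k =>
      rw [al_succ, ih, ih, wd_rec j k (j + 1 + 1) le_rfl, wd_ext (N := j + 1 + 1) (M := j + 1) (by omega) le_rfl,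
        wd_ext (k := k + 2) (N := j + 1 + 1) (M := j + 1) (by omega) le_rfl]
      push_cast
      rw [pow_succ]
      field_simp

lemma cb_bound (m : ℕ) : (Nat.centralBinom m) ^ 2 * (2 * m + 1) ≤ 16 ^ m := by
  induction m with
  | zero => simp
  | succ m ih =>
    have h1 := Nat.succ_mul_centralBinom_succ m
    have h2 : (m + 1) ^ 2 * ((Nat.centralBinom (m + 1)) ^ 2 * (2 * (m + 1) + 1)) ≤ (m + 1) ^ 2 * 16 ^ (m + 1) := by
      have e : (m + 1) ^ 2 * ((Nat.centralBinom (m + 1)) ^ 2 * (2 * (m + 1) + 1)) =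
          ((m + 1) * Nat.centralBinom (m + 1)) ^ 2 * (2 * m + 3) := by ring
      rw [e, h1]
      have e2 : (2 * (2 * m + 1) * Nat.centralBinom m) ^ 2 * (2 * m + 3) =
          (4 * (2 * m + 1) * (2 * m + 3)) * ((Nat.centralBinom m) ^ 2 * (2 * m + 1)) := by ring
      rw [e2]
      have h3 : 4 * (2 * m + 1) * (2 * m + 3) ≤ 16 * (m + 1) ^ 2 := by nlinarith
      calc (4 * (2 * m + 1) * (2 * m + 3)) * ((Nat.centralBinom m) ^ 2 * (2 * m + 1))
          ≤ (16 * (m + 1) ^ 2) * 16 ^ m := Nat.mul_le_mul h3 ih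
        _ = (m + 1) ^ 2 * 16 ^ (m + 1) := by ring
    exact Nat.le_of_mul_le_mul_left h2 (by positivity)

lemma wd_one (j : ℕ) : wd j 1 (j + 1) = j.choose (j / 2) := by
  unfold wd
  rw [sum_eq_single (j / 2)]
  · rw [if_pos (by omega)]
  · intro i _ hi
    rw [if_neg (by omega)]
  · intro h
    rw [mem_range] at h
    omega

lemma choose_bound (j : ℕ) : (j.choose (j / 2)) ^ 2 * (j + 1) ≤ 4 ^ j := by
  rcases Nat.even_or_odd' j with ⟨m, rfl | rfl⟩
  · have h1 := cb_bound m
    rw [Nat.centralBinom] at h1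
    rw [Nat.mul_div_cancel_left m (by norm_num), pow_mul]
    exact h1
  · have h1 := cb_bound (m + 1)
    have h2 : Nat.centralBinom (m + 1) = 2 * (2 * m + 1).choose m := by
      rw [Nat.centralBinom]
      have : 2 * (m + 1) = (2 * m + 1) + 1 := by ring
      rw [this, Nat.choose_succ_succ, ← Nat.choose_symm_half m]
      ring
    rw [h2] at h1
    have h3 : (2 * m + 1) / 2 = m := by omega
    rw [h3]
    have h4 : 4 * ((2 * m + 1).choose m ^ 2 * (2 * m + 1 + 1)) ≤ 4 * 4 ^ (2 * m + 1) := by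
      calc 4 * ((2 * m + 1).choose m ^ 2 * (2 * m + 1 + 1)) ≤ (2 * (2 * m + 1).choose m) ^ 2 * (2 * (m + 1) + 1) := by
            nlinarith [sq_nonneg ((2 * m + 1).choose m)]
        _ ≤ 16 ^ (m + 1) := h1
        _ = 4 * 4 ^ (2 * m + 1) := by
            rw [pow_succ, pow_succ, pow_mul]
            ring
    omega

/-- the bound for the walk -/
theorem al_one_le (j : ℕ) : al j 1 ≤ 1 / Real.sqrt (j + 1) := by
  rw [al_eq, wd_one]
  have h1 := choose_bound j
  have hs : 0 < Real.sqrt (j + 1) := Real.sqrt_pos.2 (by positivity)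
  rw [div_le_div_iff₀ (by positivity) hs, one_mul]
  have h2 : ((j.choose (j / 2) : ℝ) * Real.sqrt (j + 1)) ^ 2 ≤ (2 ^ j) ^ 2 := by
    rw [mul_pow, Real.sq_sqrt (by positivity), ← pow_mul, mul_comm j 2, pow_mul]
    norm_num
    exact_mod_cast h1
  exact (pow_le_pow_iff_left₀ (by positivity) (by positivity) (by norm_num)).1 h2

end Pool.Agent.D0H15.ZO
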