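import Pool.Agent.D0H15.ZO.Flag
import Pool.Agent.D0H15.ZO.Walk

/-!
Bounds for the kernels on tensor powers.
-/

set_option autoImplicit false

open Module TensorProduct Finset

namespace Pool.Agent.D0H15.ZO

variable {E : Type} [Field E] [DecidableEq E]

/-- the value of a tuple -/
def vl {κ ι : Type} (lY : κ → E) (lam : ι → E) {n : ℕ} (t : κ × (Fin n → ι)) : E :=
  lY t.1 * ∏ a, lam (t.2 a)

/-- the weight of a tuple -/
def wt {κ ι : Type} (sc : ι → ℕ) {n : ℕ} (t : κ × (Fin n → ι)) : ℕ := ∑ a, sc (t.2 a)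

/-- the bound for the kernels -/
noncomputable def HH {κ ι : Type} [Fintype κ] [Fintype ι] (lY : κ → E) (lam : ι → E) (sc : ι → ℕ)
    (n k : ℕ) (μ : E) : ℝ :=
  ∑ t : κ × (Fin n → ι), if vl lY lam t = μ then al (wt sc t) k else 0

section
variable {κ ι : Type} [Fintype κ] [Fintype ι] (lY : κ → E) (lam : ι → E) (sc : ι → ℕ)

/-- splitting off the first entry -/
def spl (κ ι : Type) (n : ℕ) : ι × (κ × (Fin n → ι)) ≃ κ × (Fin (n + 1) → ι) where
  toFun p := (p.2.1, Fin.cons p.1 p.2.2)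
  invFun q := (q.2 0, (q.1, fun a => q.2 a.succ))
  left_inv p := by
    obtain ⟨i, y, f⟩ := p
    simp
  right_inv q := by
    obtain ⟨y, f⟩ := q
    simp only [Prod.mk.injEq, true_and]
    exact Fin.cons_self_tail f

lemma HH_succ (hl : ∀ i, lam i ≠ 0) (n k : ℕ) (μ : E) : HH lY lam sc (n + 1) k μ =
    ∑ i, ∑ t : κ × (Fin n → ι), if vl lY lam t = μ * (lam i)⁻¹ then al (sc i + wt sc t) k else 0 := by
  unfold HH
  rw [← Equiv.sum_comp (spl κ ι n), Fintype.sum_prod_type]
  refine sum_congr rfl fun i _ => sum_congr rfl fun t _ => ?_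
  have h1 : vl lY lam (spl κ ι n (i, t)) = vl lY lam t * lam i := by
    unfold vl spl
    simp only [Equiv.coe_fn_mk]
    rw [Fin.prod_univ_succ]
    simp only [Fin.cons_zero, Fin.cons_succ]
    ring
  have h2 : wt sc (spl κ ι n (i, t)) = sc i + wt sc t := by
    unfold wt spl
    simp only [Equiv.coe_fn_mk]
    rw [Fin.sum_univ_succ]
    simp only [Fin.cons_zero, Fin.cons_succ]
  rw [h1, h2]
  simp only [eq_mul_inv_iff_mul_eq₀ (hl i)]

lemma HH_nonneg (n k : ℕ) (μ : E) : 0 ≤ HH lY lam sc n k μ := by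
  refine sum_nonneg fun t _ => ?_
  split_ifs
  · exact (al_mem _ _).1
  · exact le_rfl

lemma HH_le (n k : ℕ) (μ : E) : HH lY lam sc n k μ ≤ ((univ.filter fun t : κ × (Fin n → ι) => vl lY lam t = μ).card : ℝ) := by
  rw [card_filter]
  push_cast
  refine sum_le_sum fun t _ => ?_
  split_ifs
  · exact (al_mem _ _).2
  · exact le_rfl

end

/-- the eigenvalues in a flag with a block of size two -/
def lam2 {m : ℕ} (l₀ : E) (l : Fin m → E) : Bool ⊕ Fin m → E := Sum.elim (fun _ => l₀) l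

/-- the weights in a flag with a block of size two -/
def sc2 {m : ℕ} : Bool ⊕ Fin m → ℕ := Sum.elim (fun _ => 1) (fun _ => 0)

theorem tower_bound {V : Type} [AddCommGroup V] [Module E V] {F : V →ₗ[E] V} {m : ℕ} {l₀ : E} {l : Fin m → E}
    (hF : IsFlag2 F l₀ l) {W : ℕ → Type} [∀ n, AddCommGroup (W n)] [∀ n, Module E (W n)]
    [∀ n, FiniteDimensional E (W n)] {G : ∀ n, W n →ₗ[E] W n} (e : ∀ n, (W n ⊗[E] V) ≃ₗ[E] W (n + 1))
    (he : ∀ n x, G (n + 1) (e n x) = e n (TensorProduct.map (G n) F x))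
    (hG : ∀ n, Function.Injective (G n)) {κ : Type} [Fintype κ] {lY : κ → E}
    (h0 : ∀ k μ, kap (G 0) k μ ≤ (univ.filter fun y => lY y = μ).card) :
    ∀ n k μ, (kap (G n) k μ : ℝ) ≤ HH lY (lam2 l₀ l) sc2 n k μ := by
  have hl : ∀ i, lam2 l₀ l i ≠ 0 := by
    rintro (i | i)
    · exact hF.1
    · exact hF.2.1 i
  intro n
  induction n with
  | zero =>
    intro k μ
    rcases k with _ | k
    · rw [kap_zero, Nat.cast_zero]
      exact HH_nonneg _ _ _ _ _ _
    · have h1 : HH lY (lam2 l₀ l) sc2 0 (k + 1) μ = ((univ.filter fun y => lY y = μ).card : ℝ) := by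
        unfold HH
        rw [Fintype.sum_prod_type, card_filter]
        push_cast
        refine sum_congr rfl fun y _ => ?_
        rw [Fintype.sum_unique]
        simp [vl, wt, al_zero_succ]
      rw [h1]
      exact_mod_cast h0 (k + 1) μ
  | succ n ih =>
    intro k μ
    rcases k with _ | k
    · rw [kap_zero, Nat.cast_zero]
      exact HH_nonneg _ _ _ _ _ _
    · rw [kap_congr (e n) (he n)]
      have h1 := hF.2.2 (W n) (G n) (hG n) k μ
      have h2 : (kap (TensorProduct.map (G n) F) (k + 1) μ : ℝ) ≤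
          kap (G n) k (μ * l₀⁻¹) + kap (G n) (k + 2) (μ * l₀⁻¹) + ∑ i, (kap (G n) (k + 1) (μ * (l i)⁻¹) : ℝ) := by
        exact_mod_cast h1
      refine h2.trans ?_
      rw [HH_succ _ _ _ hl, Fintype.sum_sum_type, Fintype.sum_bool]
      refine add_le_add ?_ (sum_le_sum fun i _ => ?_)
      · refine (add_le_add (ih k _) (ih (k + 2) _)).trans (le_of_eq ?_)
        unfold HH
        rw [← sum_add_distrib, ← sum_add_distrib]
        refine sum_congr rfl fun t _ => ?_
        show _ = (if vl lY (lam2 l₀ l) t = μ * l₀⁻¹ then al (1 + wt sc2 t) (k + 1) else 0) +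
          (if vl lY (lam2 l₀ l) t = μ * l₀⁻¹ then al (1 + wt sc2 t) (k + 1) else 0)
        split_ifs
        · rw [add_comm 1, al_succ]
          ring
        · ring
      · refine (ih (k + 1) _).trans (le_of_eq ?_)
        unfold HH
        refine sum_congr rfl fun t _ => ?_
        show _ = (if vl lY (lam2 l₀ l) t = μ * (l i)⁻¹ then al (0 + wt sc2 t) (k + 1) else 0)
        rw [zero_add]

end Pool.Agent.D0H15.ZO
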